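import Mathlib

/-!
Shift graphs: colourings of `(k+1)`-tuples such that the two end-deletions of a `(k+2)`-tuple have
different colours exist exactly below the `k`-th iterated power set of the set of colours.
-/

namespace Pool.Agent.TH767

open Cardinal

universe u

/-- The iterated power set. -/
def Pow : ℕ → Type u → Type u
  | 0, Γ => Γ
  | (n+1), Γ => Pow n (Set Γ)

theorem pos (k : ℕ) : ∀ (Γ W : Type u) [LinearOrder W] (C : (Fin (k+1) → W) → Γ),
    (∀ q : Fin (k+2) → W, StrictMono q → C (Fin.init q) ≠ C (Fin.tail q)) →
    #W ≤ #(Pow k Γ) := by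
  induction k with
  | zero =>
    intro Γ W _ C h
    refine ⟨⟨fun w => C (fun _ => w), ?_⟩⟩
    have key : ∀ a b : W, a < b → C (fun _ => a) ≠ C (fun _ => b) := by
      intro a b hab
      have := h ![a, b] (by
        intro i j hij
        fin_cases i <;> fin_cases j <;> simp_all)
      have h1 : Fin.init ![a, b] = (fun _ : Fin 1 => a) := by
        ext i; fin_cases i; rfl
      have h2 : Fin.tail ![a, b] = (fun _ : Fin 1 => b) := by
        ext i; fin_cases i; rfl
      rwa [h1, h2] at this
    intro a b hab
    rcases lt_trichotomy a b with h' | h' | h'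
    · exact absurd hab (key a b h')
    · exact h'
    · exact absurd hab.symm (key b a h')
  | succ k ih =>
    intro Γ W _ C h
    refine ih (Set Γ) W (fun s => {γ | ∃ w, (∀ i, s i < w) ∧ C (Fin.snoc s w) = γ}) ?_
    intro q hq heq
    have h1 : C q ∈ {γ | ∃ w, (∀ i, (Fin.init q : Fin (k+1) → W) i < w) ∧
        C (Fin.snoc (Fin.init q) w) = γ} := by
      refine ⟨q (Fin.last _), fun i => hq (Fin.castSucc_lt_last i), ?_⟩
      rw [Fin.snoc_init_self]
    rw [heq] at h1
    obtain ⟨w, hw, hC⟩ := h1
    have hlast : q (Fin.last _) < w := by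
      have := hw (Fin.last _)
      simpa [Fin.tail] using this
    have hmono : StrictMono (Fin.snoc q w : Fin (k+3) → W) := by
      intro i j hij
      induction j using Fin.lastCases with
      | last =>
        induction i using Fin.lastCases with
        | last => exact absurd hij (lt_irrefl _)
        | cast i =>
          simp only [Fin.snoc_castSucc, Fin.snoc_last]
          refine lt_of_le_of_lt (hq.monotone (Fin.le_last i)) hlast
      | cast j =>
        induction i using Fin.lastCases with
        | last => exact absurd hij (not_lt.2 (Fin.le_last _))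
        | cast i =>
          simp only [Fin.snoc_castSucc]
          exact hq (by simpa using hij)
    refine h (Fin.snoc q w) hmono ?_
    have h2 : Fin.init (Fin.snoc q w : Fin (k+3) → W) = q := by
      ext i; simp [Fin.init]
    have h3 : Fin.tail (Fin.snoc q w : Fin (k+3) → W) = Fin.snoc (Fin.tail q) w := by
      ext i
      induction i using Fin.lastCases with
      | last => simp only [Fin.tail, Fin.succ_last, Fin.snoc_last]
      | cast i => simp only [Fin.tail, Fin.succ_castSucc, Fin.snoc_castSucc]
    rw [h2, h3, hC]

theorem neg (k : ℕ) : ∀ (Γ W : Type u) [Infinite Γ], #W ≤ #(Pow k Γ) →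
    ∃ C : (Fin (k+1) → W) → Γ, ∀ q : Fin (k+2) → W, Function.Injective q →
      C (Fin.init q) ≠ C (Fin.tail q) := by
  classical
  induction k with
  | zero =>
    rintro Γ W _ ⟨f⟩
    refine ⟨fun s => f (s 0), ?_⟩
    intro q hq h
    have := hq (f.injective h)
    simp at this
  | succ k ih =>
    intro Γ W _ hW
    obtain ⟨C, hC⟩ := ih (Set Γ) W hW
    have hcard : #(Γ × Bool) ≤ #Γ := by
      rw [mk_prod]
      simp only [lift_uzero, mk_bool]
      have h2 : lift.{u} (2 : Cardinal.{0}) = 2 := by simp
      rw [h2]
      exact (mul_le_mul' le_rfl ((natCast_lt_aleph0 (n := 2)).le)).trans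
        ((mul_le_mul' le_rfl (aleph0_le_mk Γ)).trans (mul_eq_self (aleph0_le_mk Γ)).le)
    obtain ⟨g⟩ := hcard
    have hsel : ∀ t : Fin (k+2) → W, ∃ γ : Γ, C (Fin.init t) ≠ C (Fin.tail t) →
        ¬ (γ ∈ C (Fin.init t) ↔ γ ∈ C (Fin.tail t)) := by
      intro t
      by_cases h : C (Fin.init t) = C (Fin.tail t)
      · exact ⟨Classical.arbitrary Γ, fun h' => absurd h h'⟩
      · by_contra hcon
        push Not at hcon
        apply h
        ext γ
        exact (hcon γ).2
    choose sel hsel using hsel
    refine ⟨fun t => g (sel t, decide (sel t ∈ C (Fin.init t))), ?_⟩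
    intro q hq heq
    have := g.injective heq
    rw [Prod.mk.injEq] at this
    obtain ⟨e1, e2⟩ := this
    have hinj : Function.Injective (Fin.init q : Fin (k+2) → W) := by
      intro i j hij
      exact Fin.castSucc_injective _ (hq hij)
    have h1 := hsel (Fin.init q) (hC _ hinj)
    rw [e1] at h1 e2
    rw [decide_eq_decide] at e2
    rw [← Fin.tail_init_eq_init_tail] at e2
    exact h1 e2

end Pool.Agent.TH767
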