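import Mathlib
import Pool.Agent.TH767.Shift

/-!
Colourings of tuples omitting the bad configurations live on sets of size at most `ℶ_ ω`.
-/

namespace Pool.Agent.TH767

open Cardinal Ordinal

/-- Colourings of all finite tuples by natural numbers. -/
abbrev Col (V : Type) := (k : ℕ) → (Fin k → V) → ℕ

/-- Bad configurations. -/
structure Bad {V : Type} (c : Col V) (n : ℕ) (x y : V) (q : Fin (n+3) → V) : Prop where
  ne : x ≠ y
  inj : Function.Injective q
  hx : ∀ j, q j ≠ x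
  hy : ∀ j, q j ≠ y
  hxy : c 2 ![x, y] ≤ n
  hxq : ∀ j, c 2 ![x, q j] ≤ n
  hyq : ∀ j, c 2 ![y, q j] ≤ n
  ex : c (n+3) (Fin.cons x (Fin.init q)) = c (n+3) (Fin.cons x (Fin.tail q))
  ey : c (n+3) (Fin.cons y (Fin.init q)) = c (n+3) (Fin.cons y (Fin.tail q))
  exy : c (n+4) (Fin.cons x q) = c (n+4) (Fin.cons y q)

/-- A colouring is good if it has no bad configuration. -/
def Good {V : Type} (c : Col V) : Prop := ∀ n x y q, ¬ Bad c n x y q

theorem two_pow_lt {κ c : Cardinal.{0}} (hκ : κ.IsStrongLimit) (h : c < κ) : 2 ^ c < κ :=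
  Cardinal.IsStrongLimit.isStrongPrelimit hκ h

theorem pow_lt {κ : Cardinal.{0}} (hκ : κ.IsStrongLimit) (k : ℕ) :
    ∀ Γ : Type, #Γ < κ → #(Pow k Γ) < κ := by
  induction k with
  | zero => intro Γ h; exact h
  | succ k ih =>
    intro Γ h
    refine ih (Set Γ) ?_
    rw [mk_set]
    exact two_pow_lt hκ h

theorem beth_omega_strong : (ℶ_ ω : Cardinal.{0}).IsStrongLimit :=
  isStrongLimit_beth.2 isSuccLimit_omega0.isSuccPrelimit

theorem card_le_of_good {V : Type} (c : Col V) (hc : Good c) : #V ≤ ℶ_ ω := by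
  classical
  set κ : Cardinal.{0} := ℶ_ ω with hκdef
  have hκ : κ.IsStrongLimit := beth_omega_strong
  have hκ0 : ℵ₀ ≤ κ := aleph0_le_beth _
  have hcont : 𝔠 < κ := by
    rw [← two_power_aleph0]
    refine two_pow_lt hκ ?_
    have : (ℶ_ 0 : Cardinal.{0}) < ℶ_ ω := beth_lt_beth.2 omega0_pos
    rwa [beth_zero] at this
  have hcont2 : 2 ^ 𝔠 < κ := two_pow_lt hκ hcont
  by_contra hV
  push Not at hV
  obtain ⟨X0, hX0⟩ := (le_mk_iff_exists_set (c := 2 ^ 𝔠) (α := V)).1 (hcont2.le.trans hV.le)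
  have hX0' : #X0 < κ := by rw [hX0]; exact hcont2
  have hXc : κ < #(X0ᶜ : Set V) := by
    by_contra h
    push Not at h
    have : #V ≤ κ := by
      rw [← mk_sum_compl X0]
      exact add_le_of_le hκ0 hX0'.le h
    exact absurd hV (not_lt.2 this)
  -- the hidden number
  have hn : ∀ w : (X0ᶜ : Set V), ∃ n : ℕ, 𝔠 < #{x : X0 | c 2 ![(x:V), (w:V)] ≤ n} := by
    intro w
    by_contra hcon
    push Not at hcon
    have hU : (⋃ n : ℕ, {x : X0 | c 2 ![(x:V), (w:V)] ≤ n}) = Set.univ := by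
      ext x
      simp only [Set.mem_iUnion, Set.mem_ofPred_eq, Set.mem_univ, iff_true]
      exact ⟨_, le_rfl⟩
    have h1 : #X0 ≤ 𝔠 := by
      rw [← mk_univ, ← hU]
      refine (mk_iUnion_le _).trans ?_
      refine (mul_le_mul' (le_of_eq mk_nat) (ciSup_le' hcon)).trans ?_
      exact (aleph0_mul_continuum).le
    rw [hX0] at h1
    exact absurd (cantor 𝔠) (not_lt.2 h1)
  choose nn hnn using hn
  let F : (X0ᶜ : Set V) → ℕ × Set X0 := fun w => (nn w, {x | c 2 ![(x:V), (w:V)] ≤ nn w})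
  have hFcard : #(ℕ × Set X0) < κ := by
    rw [mk_prod, mk_set]
    simp only [Cardinal.lift_id, mk_nat]
    refine mul_lt_of_lt hκ0 ?_ (two_pow_lt hκ hX0')
    have : (ℶ_ 0 : Cardinal.{0}) < ℶ_ ω := beth_lt_beth.2 omega0_pos
    simpa [beth_zero] using this
  obtain ⟨y, hy⟩ : ∃ y, κ ≤ #(F ⁻¹' {y}) := by
    have hreg : (Order.succ κ).IsRegular := isRegular_succ hκ0
    obtain ⟨y, hy⟩ := infinite_pigeonhole_card F (Order.succ κ) (Order.succ_le_of_lt hXc)
      (hκ0.trans (Order.le_succ κ)) (by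
        rw [hreg.cof_ord]
        exact hFcard.trans_le (Order.le_succ κ))
    exact ⟨y, (Order.le_succ κ).trans hy⟩
  obtain ⟨n, X'⟩ := y
  let Q : Type := ↥(F ⁻¹' {(n, X')})
  have hQ : κ ≤ #Q := hy
  have hQn : ∀ w : Q, nn w.1 = n := fun w => congrArg Prod.fst w.2
  have hQX : ∀ w : Q, {x : X0 | c 2 ![(x:V), (w.1:V)] ≤ nn w.1} = X' :=
    fun w => congrArg Prod.snd w.2
  have hQne : Nonempty Q := by
    rw [← mk_ne_zero_iff]
    intro h
    rw [h] at hQ
    exact absurd (hκ0.trans hQ) (not_le.2 aleph0_pos)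
  obtain ⟨w0⟩ := hQne
  have hX' : 𝔠 < #X' := by
    have := hnn w0.1
    rwa [hQX w0] at this
  have hmem : ∀ (x : X') (w : Q), c 2 ![((x:X0):V), (w.1:V)] ≤ n := by
    intro x w
    have : (x : X0) ∈ {x : X0 | c 2 ![(x:V), (w.1:V)] ≤ nn w.1} := by
      rw [hQX w]; exact x.2
    exact (le_trans this (hQn w).le)
  let _ : LinearOrder Q := WellOrderingRel.isWellOrder.linearOrder
  have hΓ : #(X' → ℕ) < κ := by
    rw [← power_def, mk_nat]
    have h1 : #X' < κ := (mk_set_le X').trans_lt hX0'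
    calc (ℵ₀ : Cardinal.{0}) ^ #X' ≤ (2 ^ ℵ₀) ^ #X' := power_le_power_right (cantor _).le
      _ = 2 ^ (ℵ₀ * #X') := by rw [power_mul]
      _ < κ := by
        refine two_pow_lt hκ (mul_lt_of_lt hκ0 ?_ h1)
        have : (ℶ_ 0 : Cardinal.{0}) < ℶ_ ω := beth_lt_beth.2 omega0_pos
        rwa [beth_zero] at this
  have hq : ∀ m : ℕ, ∃ q : Fin (m+3) → Q, StrictMono q ∧ ∀ x : X',
      c (m+3) (Fin.cons ((x:X0):V) (Fin.init (fun j => ((q j).1:V)))) =
      c (m+3) (Fin.cons ((x:X0):V) (Fin.tail (fun j => ((q j).1:V)))) := by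
    intro m
    by_contra hcon
    push Not at hcon
    have := pos (m+1) (X' → ℕ) Q
      (fun s x => c (m+3) (Fin.cons ((x:X0):V) (fun j => ((s j).1:V)))) (by
        intro q hq heq
        obtain ⟨x, hx⟩ := hcon q hq
        exact hx (congrFun heq x))
    exact absurd (pow_lt hκ (m+1) (X' → ℕ) hΓ) (not_lt.2 (hQ.trans this))
  choose q hqm hqc using hq
  obtain ⟨x, x', hxx, hD⟩ : ∃ x x' : X', x ≠ x' ∧ ∀ m : ℕ,
      c (m+4) (Fin.cons ((x:X0):V) (fun j => ((q m j).1:V))) =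
      c (m+4) (Fin.cons ((x':X0):V) (fun j => ((q m j).1:V))) := by
    by_contra hcon
    push Not at hcon
    have hinj : Function.Injective (fun (x : X') (m : ℕ) =>
        c (m+4) (Fin.cons ((x:X0):V) (fun j => ((q m j).1:V)))) := by
      intro x x' h
      by_contra hne
      obtain ⟨m, hm⟩ := hcon x x' hne
      exact hm (congrFun h m)
    have := mk_le_of_injective hinj
    rw [← power_def, mk_nat, aleph0_power_aleph0] at this
    exact absurd hX' (not_lt.2 this)
  set m : ℕ := max n (c 2 ![((x:X0):V), ((x':X0):V)]) with hm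
  refine hc m ((x:X0):V) ((x':X0):V) (fun j => ((q m j).1:V)) ?_
  refine ⟨?_, ?_, ?_, ?_, le_max_right _ _, ?_, ?_, hqc m x, hqc m x', hD m⟩
  · intro h
    exact hxx (Subtype.ext (Subtype.ext h))
  · intro i j hij
    exact (hqm m).injective (Subtype.ext (Subtype.ext hij))
  · intro j h
    exact (q m j).1.2 (by rw [h]; exact (x:X0).2)
  · intro j h
    exact (q m j).1.2 (by rw [h]; exact (x':X0).2)
  · intro j
    exact (hmem x (q m j)).trans (le_max_left _ _)
  · intro j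
    exact (hmem x' (q m j)).trans (le_max_left _ _)

end Pool.Agent.TH767
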