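import Mathlib
import Pool.Agent.TH767.Bound

/-!
The term model: a good colouring with the extension property, together with a generic projection,
on a set of size `#P`, for every infinite `P` of size at most `ℶ_ ω`.
-/

namespace Pool.Agent.TH767

open Cardinal Function

/-- Bad configurations are transported along maps preserving the colours of injective tuples. -/
theorem Bad.map {V V' : Type} {c : Col V} {c' : Col V'} {n : ℕ} {x y : V} {q : Fin (n+3) → V}
    (hb : Bad c n x y q) (f : V → V') (D : Set V) (hf : Set.InjOn f D)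
    (hc : ∀ k, 2 ≤ k → ∀ t : Fin k → V, Injective t → (∀ i, t i ∈ D) → c' k (f ∘ t) = c k t)
    (hx : x ∈ D) (hy : y ∈ D) (hq : ∀ j, q j ∈ D) : Bad c' n (f x) (f y) (f ∘ q) := by
  have h2 : ∀ a b : V, a ∈ D → b ∈ D → a ≠ b → c' 2 ![f a, f b] = c 2 ![a, b] := by
    intro a b ha hb hab
    have h := hc 2 le_rfl ![a, b] (by
      intro i j hij
      fin_cases i <;> fin_cases j <;> simp_all) (by
      intro i; fin_cases i <;> simp_all)
    rw [← h]
    congr 1
    ext i
    fin_cases i <;> rfl
  have hcons : ∀ (m : ℕ) (a : V) (r : Fin m → V), 1 ≤ m → a ∈ D → (∀ j, r j ∈ D) →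
      Injective r → (∀ j, r j ≠ a) →
      c' (m+1) (Fin.cons (f a) (f ∘ r)) = c (m+1) (Fin.cons a r) := by
    intro m a r hm ha hr hri hra
    have h := hc (m+1) (by omega) (Fin.cons a r) (by
      rw [Fin.cons_injective_iff]
      exact ⟨by rintro ⟨j, hj⟩; exact hra j hj, hri⟩) (by
      intro i
      induction i using Fin.cases with
      | zero => simpa using ha
      | succ i => simpa using hr i)
    rw [← h]
    congr 1
    ext i
    induction i using Fin.cases with
    | zero => simp
    | succ i => simp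
  have hinit : Injective (Fin.init q) := fun i j hij =>
    Fin.castSucc_injective _ (hb.inj hij)
  have htail : Injective (Fin.tail q) := fun i j hij =>
    Fin.succ_injective _ (hb.inj hij)
  have e1 : (Fin.init (f ∘ q)) = f ∘ Fin.init q := rfl
  have e2 : (Fin.tail (f ∘ q)) = f ∘ Fin.tail q := rfl
  refine ⟨?_, ?_, ?_, ?_, ?_, ?_, ?_, ?_, ?_, ?_⟩
  · intro h; exact hb.ne (hf hx hy h)
  · intro i j hij; exact hb.inj (hf (hq i) (hq j) hij)
  · intro j h; exact hb.hx j (hf (hq j) hx h)
  · intro j h; exact hb.hy j (hf (hq j) hy h)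
  · rw [h2 x y hx hy hb.ne]; exact hb.hxy
  · intro j
    have := h2 x (q j) hx (hq j) (fun h => hb.hx j h.symm)
    simp only [Function.comp]
    rw [this]; exact hb.hxq j
  · intro j
    have := h2 y (q j) hy (hq j) (fun h => hb.hy j h.symm)
    simp only [Function.comp]
    rw [this]; exact hb.hyq j
  · rw [e1, e2, hcons (n+2) x (Fin.init q) (by omega) hx (fun j => hq _) hinit (fun j => hb.hx _),
      hcons (n+2) x (Fin.tail q) (by omega) hx (fun j => hq _) htail (fun j => hb.hx _)]
    exact hb.ex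
  · rw [e1, e2, hcons (n+2) y (Fin.init q) (by omega) hy (fun j => hq _) hinit (fun j => hb.hy _),
      hcons (n+2) y (Fin.tail q) (by omega) hy (fun j => hq _) htail (fun j => hb.hy _)]
    exact hb.ey
  · rw [hcons (n+3) x q (by omega) hx hq hb.inj hb.hx,
      hcons (n+3) y q (by omega) hy hq hb.inj hb.hy]
    exact hb.exy

/-- Codes of colourings of the tuples from `Fin N`. -/
abbrev Code (N : ℕ) := (k : Fin (N+1)) → (Fin k → Fin N) → ℕ

/-- The colouring given by a code. -/
def ev {N : ℕ} (χ : Code N) : Col (Fin N) := fun k t =>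
  if h : k < N + 1 then χ ⟨k, h⟩ t else 0

theorem ev_code {N : ℕ} (c : Col (Fin N)) (k : ℕ) (t : Fin k → Fin N) (ht : Injective t) :
    ev (fun k t => c k t) k t = c k t := by
  have : k ≤ N := by simpa using Fintype.card_le_of_injective t ht
  unfold ev
  rw [dif_pos (by omega)]

/-- Labels. -/
abbrev Lab (P : Type) := P × (Σ m : ℕ, Code (m+1))

/-- Arities. -/
abbrev Ar {P : Type} (a : Lab P) : Type := Fin a.2.1

/-- Terms. -/
abbrev T (P : Type) := WType (Ar (P := P))

section Terms

variable {P : Type}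

/-- The projection of a term. -/
def prj : T P → P
  | WType.mk a _ => a.1

/-- The number of children of a term. -/
def nch : T P → ℕ
  | WType.mk a _ => a.2.1

/-- The children of a term. -/
def ch : (v : T P) → Fin (nch v) → T P
  | WType.mk _ s => s

/-- The code of a term. -/
def cod : (v : T P) → Code (nch v + 1)
  | WType.mk a _ => a.2.2

/-- Being a child. -/
def isCh (v w : T P) : Prop := ∃ i, ch v i = w

open Classical in
/-- The place of `w` with respect to `v`. -/
noncomputable def loc (v w : T P) : Fin (nch v + 1) :=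
  if h : ∃ i, ch v i = w then h.choose.castSucc else Fin.last _

/-- `v` is a witness that the tuple `t` is coloured by a code. -/
def Exc (E : T P → Prop) (v : T P) {k : ℕ} (t : Fin k → T P) : Prop :=
  E v ∧ (∃ i, t i = v) ∧ ∀ j, t j = v ∨ isCh v (t j)

open Classical in
/-- The colouring determined by the set of effective terms. -/
noncomputable def colAux (dflt : Col (T P)) (E : T P → Prop) : Col (T P) := fun k t =>
  if h : ∃ v, Exc E v t then ev (cod h.choose) k (loc h.choose ∘ t) else dflt k t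

/-- The effective terms. -/
def Eff (dflt : Col (T P)) : T P → Prop
  | WType.mk a s => Injective s ∧ (∀ k, 2 ≤ k → ∀ t : Fin k → Fin a.2.1, Injective t →
      ev a.2.2 k (Fin.castSucc ∘ t) =
        colAux dflt (fun w => ∃ i, s i = w ∧ Eff dflt (s i)) k (s ∘ t)) ∧ Good (ev a.2.2)

/-- The colouring. -/
noncomputable def col (dflt : Col (T P)) : Col (T P) := colAux dflt (Eff dflt)

/-- The level of a term. -/
def lam (lam0 : T P → ℕ) : T P → ℕ
  | WType.mk a s => max (lam0 (WType.mk a s))
      (max (a.2.1 + 1) (Finset.univ.sup (fun i => lam lam0 (s i) + 1)))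

theorem lam0_le (lam0 : T P → ℕ) (v : T P) : lam0 v ≤ lam lam0 v := by
  cases v with
  | mk a s => rw [lam]; exact le_max_left _ _

theorem nch_lt (lam0 : T P → ℕ) (v : T P) : nch v < lam lam0 v := by
  cases v with
  | mk a s =>
    rw [lam]
    have : nch (WType.mk a s) + 1 ≤ a.2.1 + 1 := le_rfl
    exact lt_of_lt_of_le (Nat.lt_succ_self _) (this.trans ((le_max_left _ _).trans (le_max_right _ _)))

theorem lam_ch (lam0 : T P → ℕ) {v w : T P} (h : isCh v w) : lam lam0 w < lam lam0 v := by
  cases v with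
  | mk a s =>
    obtain ⟨i, rfl⟩ := h
    conv_rhs => rw [lam]
    have h1 : lam lam0 (s i) + 1 ≤ Finset.univ.sup (fun i => lam lam0 (s i) + 1) :=
      Finset.le_sup (f := fun i => lam lam0 (s i) + 1) (Finset.mem_univ i)
    have h2 : lam lam0 (ch (WType.mk a s) i) + 1 ≤ _ := h1.trans (le_max_right (a.2.1 + 1) _)
    exact lt_of_lt_of_le (Nat.lt_succ_self _) (h2.trans (le_max_right _ _))

theorem not_isCh_self (v : T P) : ¬ isCh v v := fun h => lt_irrefl _ (lam_ch (fun _ => 0) h)

theorem isCh_asymm {v w : T P} (h : isCh v w) : ¬ isCh w v := fun h' =>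
  lt_asymm (lam_ch (fun _ => 0) h) (lam_ch (fun _ => 0) h')

/-- A term has fewer children than its level. -/
theorem card_lt (lam0 : T P → ℕ) {v : T P} {N : ℕ} (r : Fin N → T P) (hr : Injective r)
    (h : ∀ j, isCh v (r j)) : N < lam lam0 v := by
  choose g hg using h
  have : Injective g := by
    intro i j hij
    apply hr
    rw [← hg i, ← hg j, hij]
  have h1 : N ≤ nch v := by simpa using Fintype.card_le_of_injective g this
  exact lt_of_le_of_lt h1 (nch_lt lam0 v)

theorem Exc.unique {E E' : T P → Prop} {v w : T P} {k : ℕ} {t : Fin k → T P}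
    (hv : Exc E v t) (hw : Exc E' w t) : v = w := by
  obtain ⟨-, ⟨i, hi⟩, hv⟩ := hv
  obtain ⟨-, ⟨j, hj⟩, hw⟩ := hw
  rcases hv j with h | h
  · rw [← h, hj]
  · rcases hw i with h' | h'
    · rw [← hi, h']
    · rw [hj] at h
      rw [hi] at h'
      exact absurd h' (isCh_asymm h)

theorem colAux_of_exc (dflt : Col (T P)) {E : T P → Prop} {v : T P} {k : ℕ} {t : Fin k → T P}
    (h : Exc E v t) : colAux dflt E k t = ev (cod v) k (loc v ∘ t) := by
  have hex : ∃ v, Exc E v t := ⟨v, h⟩
  unfold colAux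
  rw [dif_pos hex]
  have : hex.choose = v := hex.choose_spec.unique h
  rw [this]

theorem colAux_of_not (dflt : Col (T P)) {E : T P → Prop} {k : ℕ} {t : Fin k → T P}
    (h : ∀ v, ¬ Exc E v t) : colAux dflt E k t = dflt k t := by
  unfold colAux
  rw [dif_neg (by push Not; exact h)]

theorem colAux_congr (dflt : Col (T P)) {E E' : T P → Prop} {k : ℕ} {t : Fin k → T P}
    (h : ∀ i, E (t i) ↔ E' (t i)) : colAux dflt E k t = colAux dflt E' k t := by
  have key : ∀ v, Exc E v t ↔ Exc E' v t := by
    intro v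
    constructor
    · rintro ⟨h1, ⟨i, hi⟩, h3⟩
      refine ⟨?_, ⟨i, hi⟩, h3⟩
      rw [← hi] at h1 ⊢
      exact (h i).1 h1
    · rintro ⟨h1, ⟨i, hi⟩, h3⟩
      refine ⟨?_, ⟨i, hi⟩, h3⟩
      rw [← hi] at h1 ⊢
      exact (h i).2 h1
  by_cases hex : ∃ v, Exc E v t
  · obtain ⟨v, hv⟩ := hex
    rw [colAux_of_exc dflt hv, colAux_of_exc dflt ((key v).1 hv)]
  · push Not at hex
    rw [colAux_of_not dflt hex, colAux_of_not dflt (fun v hv => hex v ((key v).2 hv))]

theorem ch_inj {dflt : Col (T P)} {v : T P} (h : Eff dflt v) : Injective (ch v) := by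
  cases v with
  | mk a s => rw [Eff] at h; exact h.1

theorem good_cod {dflt : Col (T P)} {v : T P} (h : Eff dflt v) : Good (ev (cod v)) := by
  cases v with
  | mk a s => rw [Eff] at h; exact h.2.2

theorem col_ch {dflt : Col (T P)} {v : T P} (h : Eff dflt v) {k : ℕ} (hk : 2 ≤ k)
    (t : Fin k → Fin (nch v)) (ht : Injective t) :
    col dflt k (ch v ∘ t) = ev (cod v) k (Fin.castSucc ∘ t) := by
  cases v with
  | mk a s =>
    rw [Eff] at h
    have h1 := h.2.1 k hk t ht
    refine Eq.trans ?_ h1.symm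
    refine colAux_congr dflt ?_
    intro i
    constructor
    · intro hi; exact ⟨t i, rfl, hi⟩
    · rintro ⟨j, hj', hj⟩
      have : j = t i := h.1 hj'
      subst this
      exact hj

theorem loc_ch {v : T P} (h : Injective (ch v)) (i : Fin (nch v)) :
    loc v (ch v i) = i.castSucc := by
  have hex : ∃ j, ch v j = ch v i := ⟨i, rfl⟩
  unfold loc
  rw [dif_pos hex]
  have := h hex.choose_spec
  rw [this]

theorem loc_self (v : T P) : loc v v = Fin.last _ := by
  have h : ¬ ∃ i, ch v i = v := not_isCh_self v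
  unfold loc
  rw [dif_neg h]

theorem loc_injOn {v : T P} (h : Injective (ch v)) :
    Set.InjOn (loc v) {w | w = v ∨ isCh v w} := by
  intro a ha b hb hab
  rcases ha with rfl | ⟨i, rfl⟩
  · rcases hb with rfl | ⟨j, rfl⟩
    · rfl
    · rw [loc_self, loc_ch h] at hab
      exact absurd hab.symm (Fin.castSucc_ne_last j)
  · rcases hb with rfl | ⟨j, rfl⟩
    · rw [loc_self, loc_ch h] at hab
      exact absurd hab (Fin.castSucc_ne_last i)
    · rw [loc_ch h, loc_ch h] at hab
      rw [Fin.castSucc_injective _ hab]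

theorem col_local {dflt : Col (T P)} {v : T P} (h : Eff dflt v) {k : ℕ} (hk : 2 ≤ k)
    (t : Fin k → T P) (ht : Injective t) (hv : ∀ i, t i = v ∨ isCh v (t i)) :
    col dflt k t = ev (cod v) k (loc v ∘ t) := by
  by_cases hex : ∃ i, t i = v
  · exact colAux_of_exc dflt ⟨h, hex, hv⟩
  · push Not at hex
    have hv' : ∀ i, isCh v (t i) := fun i => (hv i).resolve_left (hex i)
    choose g hg using hv'
    have hgi : Injective g := by
      intro i j hij
      apply ht
      rw [← hg i, ← hg j, hij]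
    have e1 : t = ch v ∘ g := by ext i; exact (hg i).symm
    have h1 := col_ch h hk g hgi
    rw [← e1] at h1
    rw [h1]
    congr 1
    ext i
    simp only [Function.comp]
    rw [← hg i, loc_ch (ch_inj h)]

theorem not_bad_local {dflt : Col (T P)} {v : T P} (h : Eff dflt v) {n : ℕ} {x y : T P}
    {q : Fin (n+3) → T P} (hb : Bad (col dflt) n x y q) :
    ¬ ((x = v ∨ isCh v x) ∧ (y = v ∨ isCh v y) ∧ ∀ j, (q j = v ∨ isCh v (q j))) := by
  rintro ⟨h1, h2, h3⟩
  refine good_cod h _ _ _ _ (hb.map (loc v) {w | w = v ∨ isCh v w} (loc_injOn (ch_inj h)) ?_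
    h1 h2 h3)
  intro k hk t ht hD
  exact (col_local h hk t ht hD).symm

/-- Effective children. -/
def EC (dflt : Col (T P)) (v w : T P) : Prop := Eff dflt v ∧ isCh v w

/-- The symmetric consequences of a bad configuration. -/
structure Conf (dflt : Col (T P)) (lam0 : T P → ℕ) (n : ℕ) (x y : T P) (q : Fin (n+3) → T P) :
    Prop where
  ne : x ≠ y
  inj : Injective q
  hx : ∀ j, q j ≠ x
  hy : ∀ j, q j ≠ y
  hxy : ¬ EC dflt x y → ¬ EC dflt y x → lam lam0 x ≤ n ∧ lam lam0 y ≤ n
  hxq : ∀ j, ¬ EC dflt x (q j) → ¬ EC dflt (q j) x → lam lam0 x ≤ n ∧ lam lam0 (q j) ≤ n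
  hyq : ∀ j, ¬ EC dflt y (q j) → ¬ EC dflt (q j) y → lam lam0 y ≤ n ∧ lam lam0 (q j) ≤ n
  ex : col dflt (n+3) (Fin.cons x (Fin.init q)) = col dflt (n+3) (Fin.cons x (Fin.tail q))
  ey : col dflt (n+3) (Fin.cons y (Fin.init q)) = col dflt (n+3) (Fin.cons y (Fin.tail q))
  exy : col dflt (n+4) (Fin.cons x q) = col dflt (n+4) (Fin.cons y q)
  all : ∀ v, Eff dflt v →
    ¬ ((x = v ∨ isCh v x) ∧ (y = v ∨ isCh v y) ∧ ∀ j, (q j = v ∨ isCh v (q j)))

theorem Conf.symm {dflt : Col (T P)} {lam0 : T P → ℕ} {n : ℕ} {x y : T P} {q : Fin (n+3) → T P}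
    (h : Conf dflt lam0 n x y q) : Conf dflt lam0 n y x q where
  ne := h.ne.symm
  inj := h.inj
  hx := h.hy
  hy := h.hx
  hxy h1 h2 := (h.hxy h2 h1).symm
  hxq := h.hyq
  hyq := h.hxq
  ex := h.ey
  ey := h.ex
  exy := h.exy.symm
  all v hv h' := h.all v hv ⟨h'.2.1, h'.1, h'.2.2⟩

open Classical in
/-- The index of `x` among the children of `u`. -/
noncomputable def idx (u x : T P) : ℕ := if h : ∃ i, ch u i = x then (h.choose : ℕ) + 1 else 0

theorem idx_pos {u x : T P} (h : isCh u x) : 0 < idx u x := by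
  have h' : ∃ i, ch u i = x := h
  unfold idx
  rw [dif_pos h']
  omega

theorem idx_inj {u x y : T P} (hx : isCh u x) (h : idx u x = idx u y) : x = y := by
  have hx' : ∃ i, ch u i = x := hx
  have hy' : ∃ i, ch u i = y := by
    by_contra hcon
    have h1 := idx_pos hx
    rw [h] at h1
    unfold idx at h1
    rw [dif_neg hcon] at h1
    exact lt_irrefl _ h1
  unfold idx at h
  rw [dif_pos hx', dif_pos hy'] at h
  rw [← hx'.choose_spec, ← hy'.choose_spec]
  congr 1
  exact Fin.ext (by omega)

/-- The default colours. -/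
noncomputable def dfl (lam0 : T P → ℕ) (C : (n : ℕ) → (Fin (n+2) → T P) → ℕ) : Col (T P)
  | 0, _ => 0
  | 1, _ => 0
  | 2, t => max (lam lam0 (t 0)) (lam lam0 (t 1))
  | (j+3), t => Encodable.encode
      ((List.ofFn (fun i : Fin (j+2) => idx (t i.succ) (t 0))), C j (Fin.tail t))

theorem dfl_cons {lam0 : T P → ℕ} {C : (n : ℕ) → (Fin (n+2) → T P) → ℕ} {n : ℕ} {x y : T P}
    {r r' : Fin (n+2) → T P}
    (h : dfl lam0 C (n+3) (Fin.cons x r) = dfl lam0 C (n+3) (Fin.cons y r')) :
    (∀ i, idx (r i) x = idx (r' i) y) ∧ C n r = C n r' := by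
  unfold dfl at h
  have h' := Encodable.encode_injective h
  rw [Prod.mk.injEq] at h'
  obtain ⟨h1, h2⟩ := h'
  refine ⟨?_, ?_⟩
  · intro i
    have := congrFun (List.ofFn_injective h1) i
    simpa using this
  · simpa using h2

section Proof

variable {lam0 : T P → ℕ} {C : (n : ℕ) → (Fin (n+2) → T P) → ℕ}

/-- The final contradiction. -/
theorem Conf.final
    (hC : ∀ n (q : Fin (n+3) → T P), Injective q → (∀ j, lam0 (q j) ≤ n) →
      C n (Fin.init q) ≠ C n (Fin.tail q))
    {n : ℕ} {x y : T P} {q : Fin (n+3) → T P}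
    (h : Conf (dfl lam0 C) lam0 n x y q) (hlx : lam lam0 x ≤ n)
    (hlq : ∀ j, lam lam0 (q j) ≤ n) (hch : ∀ j, ¬ isCh (q j) x) : False := by
  have key : ∀ r : Fin (n+2) → T P, Injective r → (∀ j, ∃ i, r j = q i) →
      ∀ v, ¬ Exc (Eff (dfl lam0 C)) v (Fin.cons x r : Fin (n+3) → T P) := by
    rintro r hr hrq v ⟨hv1, ⟨i, hi⟩, hv3⟩
    induction i using Fin.cases with
    | zero =>
      rw [Fin.cons_zero] at hi
      subst hi
      have : ∀ j, isCh x (r j) := by
        intro j
        have := hv3 j.succ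
        rw [Fin.cons_succ] at this
        refine this.resolve_left ?_
        obtain ⟨i, hi⟩ := hrq j
        rw [hi]
        exact h.hx i
      have := card_lt lam0 r hr this
      omega
    | succ i =>
      rw [Fin.cons_succ] at hi
      obtain ⟨l, hl⟩ := hrq i
      rw [hl] at hi
      subst hi
      have := hv3 0
      rw [Fin.cons_zero] at this
      rcases this with h' | h'
      · exact h.hx l h'.symm
      · exact hch l h'
  have h1 := h.ex
  have k1 := key (Fin.init q) (fun i j hij => Fin.castSucc_injective _ (h.inj hij))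
    (fun j => ⟨_, rfl⟩)
  have k2 := key (Fin.tail q) (fun i j hij => Fin.succ_injective _ (h.inj hij))
    (fun j => ⟨_, rfl⟩)
  unfold col at h1
  rw [colAux_of_not _ k1, colAux_of_not _ k2] at h1
  exact hC n q h.inj (fun j => (lam0_le lam0 _).trans (hlq j)) (dfl_cons h1).2

theorem Conf.caseA
    (hC : ∀ n (q : Fin (n+3) → T P), Injective q → (∀ j, lam0 (q j) ≤ n) →
      C n (Fin.init q) ≠ C n (Fin.tail q))
    {n : ℕ} {x y : T P} {q : Fin (n+3) → T P}
    (h : Conf (dfl lam0 C) lam0 n x y q) (hly : lam lam0 y ≤ lam lam0 x)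
    (hlq : ∀ j, lam lam0 (q j) ≤ lam lam0 x) : False := by
  by_cases hex : ∃ j, ¬ EC (dfl lam0 C) x (q j)
  · obtain ⟨j, hj⟩ := hex
    have hj' : ¬ EC (dfl lam0 C) (q j) x := fun h' =>
      absurd (lam_ch lam0 h'.2) (not_lt.2 (hlq j))
    have hlx := (h.hxq j hj hj').1
    exact h.final hC hlx (fun j => (hlq j).trans hlx)
      (fun j h' => absurd (lam_ch lam0 h') (not_lt.2 (hlq j)))
  · push Not at hex
    have h1 : ¬ EC (dfl lam0 C) x y := by
      rintro ⟨h1, h2⟩
      exact h.all x h1 ⟨Or.inl rfl, Or.inr h2, fun j => Or.inr (hex j).2⟩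
    have h2 : ¬ EC (dfl lam0 C) y x := fun h' =>
      absurd (lam_ch lam0 h'.2) (not_lt.2 hly)
    have hlx := (h.hxy h1 h2).1
    have := card_lt lam0 q h.inj (fun j => (hex j).2)
    omega

theorem Conf.caseB
    (hC : ∀ n (q : Fin (n+3) → T P), Injective q → (∀ j, lam0 (q j) ≤ n) →
      C n (Fin.init q) ≠ C n (Fin.tail q))
    {n : ℕ} {x y : T P} {q : Fin (n+3) → T P}
    (h : Conf (dfl lam0 C) lam0 n x y q) (m : Fin (n+3)) (hlx : lam lam0 x ≤ lam lam0 (q m))
    (hly : lam lam0 y ≤ lam lam0 (q m))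
    (hlq : ∀ j, lam lam0 (q j) ≤ lam lam0 (q m)) : False := by
  -- an exceptional tuple through `q m` has witness `q m`
  have wit : ∀ z, lam lam0 z ≤ lam lam0 (q m) → ∀ v,
      Exc (Eff (dfl lam0 C)) v (Fin.cons z q : Fin (n+4) → T P) → v = q m := by
    rintro z hz v ⟨-, ⟨i, hi⟩, h3⟩
    have h4 := h3 m.succ
    rw [Fin.cons_succ] at h4
    rcases h4 with h4 | h4
    · exact h4.symm
    · exfalso
      have h5 := lam_ch lam0 h4
      rw [← hi] at h5
      induction i using Fin.cases with
      | zero => rw [Fin.cons_zero] at h5; omega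
      | succ i => rw [Fin.cons_succ] at h5; have := hlq i; omega
  -- the indices agree once both tuples are default
  have main : (∀ v, ¬ Exc (Eff (dfl lam0 C)) v (Fin.cons x q : Fin (n+4) → T P)) →
      (∀ v, ¬ Exc (Eff (dfl lam0 C)) v (Fin.cons y q : Fin (n+4) → T P)) →
      ∀ j, idx (q j) x = idx (q j) y := by
    intro k1 k2
    have h1 := h.exy
    unfold col at h1
    rw [colAux_of_not _ k1, colAux_of_not _ k2] at h1
    exact (dfl_cons (n := n+1) h1).1
  by_cases hboth : EC (dfl lam0 C) (q m) x ∧ EC (dfl lam0 C) (q m) y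
  · obtain ⟨⟨hE, h1⟩, -, h2⟩ := hboth
    have h3 : ¬ ∀ j, (q j = q m ∨ isCh (q m) (q j)) := fun h' =>
      h.all _ hE ⟨Or.inr h1, Or.inr h2, h'⟩
    push Not at h3
    obtain ⟨j, hj1, hj2⟩ := h3
    have k : ∀ z, lam lam0 z ≤ lam lam0 (q m) → ∀ v,
        ¬ Exc (Eff (dfl lam0 C)) v (Fin.cons z q : Fin (n+4) → T P) := by
      intro z hz v hv
      have h4 := wit z hz v hv
      subst h4
      have h5 := hv.2.2 j.succ
      rw [Fin.cons_succ] at h5
      exact h5.elim hj1 hj2
    have h6 := main (k x hlx) (k y hly) m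
    exact h.ne (idx_inj h1 h6)
  · have hlm : lam lam0 (q m) ≤ n := by
      rw [not_and_or] at hboth
      rcases hboth with h' | h'
      · have h2 : ¬ EC (dfl lam0 C) x (q m) := fun h' =>
          absurd (lam_ch lam0 h'.2) (not_lt.2 hlx)
        exact (h.hxq m h2 h').2
      · have h2 : ¬ EC (dfl lam0 C) y (q m) := fun h' =>
          absurd (lam_ch lam0 h'.2) (not_lt.2 hly)
        exact (h.hyq m h2 h').2
    have k : ∀ z, lam lam0 z ≤ lam lam0 (q m) → ∀ v,
        ¬ Exc (Eff (dfl lam0 C)) v (Fin.cons z q : Fin (n+4) → T P) := by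
      intro z hz v hv
      have h4 := wit z hz v hv
      subst h4
      have h5 : ∀ j : Fin (n+2), isCh (q m) (q (m.succAbove j)) := by
        intro j
        have h6 := hv.2.2 (m.succAbove j).succ
        rw [Fin.cons_succ] at h6
        refine h6.resolve_left ?_
        intro h7
        exact Fin.succAbove_ne m j (h.inj h7)
      have h6 := card_lt lam0 (fun j => q (m.succAbove j))
        (h.inj.comp Fin.succAbove_right_injective) h5
      omega
    have h6 := main (k x hlx) (k y hly)
    refine h.final hC (hlx.trans hlm) (fun j => (hlq j).trans hlm) ?_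
    intro j hj
    exact h.ne (idx_inj hj (h6 j))

theorem good_col
    (hC : ∀ n (q : Fin (n+3) → T P), Injective q → (∀ j, lam0 (q j) ≤ n) →
      C n (Fin.init q) ≠ C n (Fin.tail q)) : Good (col (dfl lam0 C)) := by
  intro n x y q hb
  have pair : ∀ a b : T P, a ≠ b → col (dfl lam0 C) 2 ![a, b] ≤ n →
      ¬ EC (dfl lam0 C) a b → ¬ EC (dfl lam0 C) b a → lam lam0 a ≤ n ∧ lam lam0 b ≤ n := by
    intro a b hab h h1 h2
    have k : ∀ v, ¬ Exc (Eff (dfl lam0 C)) v ![a, b] := by
      rintro v ⟨hv1, ⟨i, hi⟩, hv3⟩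
      have h3 := hv3 0
      have h4 := hv3 1
      simp only [Matrix.cons_val_zero, Matrix.cons_val_one] at h3 h4
      have : v = a ∨ v = b := by
        fin_cases i
        · left; exact hi.symm
        · right; exact hi.symm
      rcases this with rfl | rfl
      · rcases h4 with h4 | h4
        · exact hab h4.symm
        · exact h1 ⟨hv1, h4⟩
      · rcases h3 with h3 | h3
        · exact hab h3
        · exact h2 ⟨hv1, h3⟩
    unfold col at h
    rw [colAux_of_not _ k] at h
    unfold dfl at h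
    simpa using h
  have hconf : Conf (dfl lam0 C) lam0 n x y q := {
    ne := hb.ne
    inj := hb.inj
    hx := hb.hx
    hy := hb.hy
    hxy := fun h1 h2 => pair x y hb.ne hb.hxy h1 h2
    hxq := fun j h1 h2 => pair x (q j) (fun h => hb.hx j h.symm) (hb.hxq j) h1 h2
    hyq := fun j h1 h2 => pair y (q j) (fun h => hb.hy j h.symm) (hb.hyq j) h1 h2
    ex := hb.ex
    ey := hb.ey
    exy := hb.exy
    all := fun v hv => not_bad_local hv hb }
  obtain ⟨m, hm⟩ := Finite.exists_max (fun j => lam lam0 (q j))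
  rcases le_total (lam lam0 x) (lam lam0 y) with hxy | hxy
  · rcases le_total (lam lam0 y) (lam lam0 (q m)) with hyq | hyq
    · exact hconf.caseB hC m (hxy.trans hyq) hyq hm
    · exact hconf.symm.caseA hC hxy (fun j => (hm j).trans hyq)
  · rcases le_total (lam lam0 x) (lam lam0 (q m)) with hxq | hxq
    · exact hconf.caseB hC m hxq (hxy.trans hxq) hm
    · exact hconf.caseA hC hxy (fun j => (hm j).trans hxq)

end Proof

/-- The extension property of the term colouring. -/
theorem ext_col (dflt : Col (T P)) {m : ℕ} (s : Fin m → T P) (hs : Injective s) (p : P)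
    (c' : Col (Fin (m+1))) (hg : Good c')
    (hc : ∀ k, 2 ≤ k → ∀ t : Fin k → Fin m, Injective t →
      c' k (Fin.castSucc ∘ t) = col dflt k (s ∘ t)) :
    ∃ v, (∀ i, s i ≠ v) ∧ prj v = p ∧ ∀ k, 2 ≤ k → ∀ t : Fin k → Fin (m+1), Injective t →
      col dflt k ((Fin.snoc s v : Fin (m+1) → T P) ∘ t) = c' k t := by
  set v : T P := WType.mk (p, ⟨m, fun k t => c' k t⟩) s with hv
  have hE : Eff dflt v := by
    rw [hv, Eff]
    refine ⟨hs, ?_, ?_⟩
    · intro k hk t ht
      have h1 := ev_code c' k (Fin.castSucc ∘ t) ((Fin.castSucc_injective _).comp ht)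
      have h2 := hc k hk t ht
      refine h1.trans (h2.trans ?_)
      refine colAux_congr dflt ?_
      intro i
      constructor
      · intro hi; exact ⟨t i, rfl, hi⟩
      · rintro ⟨j, hj', hj⟩
        have : j = t i := hs hj'
        subst this
        exact hj
    · intro n x y q hb
      refine hg n x y q (hb.map id Set.univ (Set.injOn_id _) ?_ trivial trivial
        (fun _ => trivial))
      intro k hk t ht _
      exact (ev_code c' k t ht).symm
  have hch : ∀ i, isCh v (s i) := fun i => ⟨i, rfl⟩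
  refine ⟨v, ?_, rfl, ?_⟩
  · intro i h
    have := hch i
    rw [h] at this
    exact not_isCh_self v this
  · intro k hk t ht
    have hsn : Injective (Fin.snoc s v : Fin (m+1) → T P) := by
      rw [Fin.snoc_injective_iff]
      refine ⟨hs, ?_⟩
      rintro ⟨i, hi⟩
      have := hch i
      rw [hi] at this
      exact not_isCh_self v this
    rw [col_local hE hk _ (hsn.comp ht) (by
      intro i
      simp only [Function.comp]
      induction t i using Fin.lastCases with
      | last => left; rw [Fin.snoc_last]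
      | cast j => right; rw [Fin.snoc_castSucc]; exact hch j)]
    have h1 := ev_code c' k t ht
    rw [← h1]
    congr 1
    ext i
    simp only [Function.comp]
    induction t i using Fin.lastCases with
    | last => rw [Fin.snoc_last, loc_self]; rfl
    | cast j =>
      rw [Fin.snoc_castSucc]
      exact congrArg Fin.val (loc_ch (ch_inj hE) j)

end Terms

end Pool.Agent.TH767
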