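import Mathlib
import Pool.Agent.TH767.Term

/-!
Existence of models in every infinite size at most `ℶ_ ω`.
-/

namespace Pool.Agent.TH767

open Cardinal Function

/-- The abstract properties of the models. -/
structure Mdl {V P : Type} (π : V → P) (c : Col V) : Prop where
  inf : Infinite P
  good : Good c
  ext : ∀ {m : ℕ} (s : Fin m → V), Injective s → ∀ (p : P) (c' : Col (Fin (m+1))), Good c' →
      (∀ k, 2 ≤ k → ∀ t : Fin k → Fin m, Injective t →
        c' k (Fin.castSucc ∘ t) = c k (s ∘ t)) →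
      ∃ v, (∀ i, s i ≠ v) ∧ π v = p ∧ ∀ k, 2 ≤ k → ∀ t : Fin k → Fin (m+1), Injective t →
        c k ((Fin.snoc s v : Fin (m+1) → V) ∘ t) = c' k t

theorem mk_pow (n : ℕ) : ∀ (Γ : Type) (o : Ordinal.{0}), #Γ = ℶ_ o →
    #(Pow n Γ) = ℶ_ (o + n) := by
  induction n with
  | zero => intro Γ o h; simpa [Pow] using h
  | succ n ih =>
    intro Γ o h
    have h1 := ih (Set Γ) (Order.succ o) (by rw [mk_set, h, beth_succ])
    have h2 : Order.succ o + (n : Ordinal.{0}) = o + ((n+1 : ℕ) : Ordinal.{0}) := by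
      rw [Order.succ_eq_add_one, add_assoc]
      congr 1
      rw [← Nat.cast_one (R := Ordinal.{0}), ← Nat.cast_add, Nat.add_comm]
    rw [← h2]
    exact h1

theorem mk_pow_nat (n : ℕ) : #(Pow n ℕ) = ℶ_ (n : Ordinal.{0}) := by
  have := mk_pow n ℕ 0 (by rw [beth_zero, mk_nat])
  rwa [zero_add] at this

theorem beth_omega_le : (ℶ_ Ordinal.omega0 : Cardinal.{0}) ≤ #(Σ n : ℕ, Pow n ℕ) := by
  rw [beth_limit Ordinal.isSuccLimit_omega0]
  refine ciSup_le' ?_
  rintro ⟨a, ha⟩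
  obtain ⟨n, rfl⟩ := Ordinal.lt_omega0.1 ha
  rw [← mk_pow_nat]
  exact mk_le_of_injective (f := fun x => (⟨n, x⟩ : Σ n : ℕ, Pow n ℕ)) (by
    intro x y h
    simpa using h)

theorem exists_lam0 (X : Type) (hX : #X ≤ ℶ_ Ordinal.omega0) :
    ∃ lam0 : X → ℕ, ∀ n, #{x : X // lam0 x ≤ n} ≤ #(Pow (n+1) ℕ) := by
  obtain ⟨f⟩ := hX.trans beth_omega_le
  refine ⟨fun x => (f x).1, ?_⟩
  intro n
  have h1 : #{x : X // (f x).1 ≤ n} ≤ #(Σ k : Fin (n+1), Pow k ℕ) := by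
    refine mk_le_of_injective
      (f := fun x => (⟨⟨(f x.1).1, Nat.lt_succ_of_le x.2⟩, (f x.1).2⟩ : Σ k : Fin (n+1), Pow k ℕ)) ?_
    intro x y h
    apply Subtype.ext
    apply f.injective
    rw [Sigma.mk.injEq] at h
    obtain ⟨h1, h2⟩ := h
    have h3 : (f x.1).1 = (f y.1).1 := congrArg Fin.val h1
    exact Sigma.ext h3 h2
  refine h1.trans ?_
  rw [mk_sigma]
  have h2 : ∀ k : Fin (n+1), #(Pow k ℕ) ≤ ℶ_ ((n+1 : ℕ) : Ordinal.{0}) := by
    intro k
    rw [mk_pow_nat]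
    apply beth_le_beth.2
    exact_mod_cast k.2.le
  refine (sum_le_sum _ _ h2).trans ?_
  rw [sum_const', mk_pow_nat, mk_fin]
  refine (mul_le_mul' (natCast_lt_aleph0.le.trans (aleph0_le_beth ((n+1:ℕ):Ordinal.{0}))) le_rfl).trans ?_
  rw [mul_eq_self (aleph0_le_beth _)]

theorem exists_C (X : Type) (lam0 : X → ℕ) (h : ∀ n, #{x : X // lam0 x ≤ n} ≤ #(Pow (n+1) ℕ)) :
    ∃ C : (n : ℕ) → (Fin (n+2) → X) → ℕ,
      ∀ n (q : Fin (n+3) → X), Injective q → (∀ j, lam0 (q j) ≤ n) →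
      C n (Fin.init q) ≠ C n (Fin.tail q) := by
  classical
  have h1 := fun n => neg (n+1) ℕ {x : X // lam0 x ≤ n} (h n)
  choose C hC using h1
  refine ⟨fun n t => if ht : ∀ i, lam0 (t i) ≤ n then C n (fun i => ⟨t i, ht i⟩) else 0, ?_⟩
  intro n q hq hl
  have e1 : ∀ i, lam0 (Fin.init q i) ≤ n := fun i => hl _
  have e2 : ∀ i, lam0 (Fin.tail q i) ≤ n := fun i => hl _
  beta_reduce
  rw [dif_pos e1, dif_pos e2]
  refine hC n (fun i => ⟨q i, hl i⟩) ?_
  intro i j hij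
  exact hq (congrArg Subtype.val hij)

theorem mk_T (P : Type) [Infinite P] : #(T P) = #P := by
  apply le_antisymm
  · have h1 := WType.cardinalMk_le_max_aleph0_of_finite (β := Ar (P := P))
    refine h1.trans ?_
    have h2 : #(Lab P) ≤ #P := by
      have : #(Σ m : ℕ, Code (m+1)) ≤ ℵ₀ := mk_le_aleph0
      rw [mk_prod, Cardinal.lift_id, Cardinal.lift_id]
      refine (mul_le_mul' le_rfl (this.trans (aleph0_le_mk P))).trans ?_
      rw [mul_eq_self (aleph0_le_mk P)]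
    exact max_le h2 (aleph0_le_mk P)
  · refine mk_le_of_injective (f := fun p : P =>
      (WType.mk ((p, ⟨0, fun _ _ => 0⟩) : Lab P) Fin.elim0 : T P)) ?_
    intro p p' h
    exact congrArg prj h

theorem exists_mdl (P : Type) [Infinite P] (hP : #P ≤ ℶ_ Ordinal.omega0) :
    ∃ c : Col (T P), Mdl prj c := by
  obtain ⟨lam0, hlam⟩ := exists_lam0 (T P) (by rw [mk_T]; exact hP)
  obtain ⟨C, hC⟩ := exists_C (T P) lam0 hlam
  refine ⟨col (dfl lam0 C), inferInstance, good_col hC, ?_⟩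
  intro m s hs p c' hg hc
  exact ext_col _ s hs p c' hg hc

end Pool.Agent.TH767
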