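import Mathlib

/-!
Back-and-forth systems for relational languages presented by tuples.
-/

namespace Pool.Agent.TH767

open FirstOrder FirstOrder.Language FirstOrder.Language.Structure Function

variable {L : FirstOrder.Language.{0,0}} {M N : Type} [L.Structure M] [L.Structure N]

/-- Back-and-forth equivalence. -/
def BFE (L : FirstOrder.Language.{0,0}) (M A : Type) [L.Structure M] [L.Structure A] : Prop :=
  ∃ S : Set (L.PartialEquiv M A), S.Nonempty ∧ (∀ f ∈ S, f.dom.FG) ∧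
    (∀ f ∈ S, ∀ m : M, ∃ g ∈ S, f ≤ g ∧ m ∈ g.dom) ∧
    (∀ f ∈ S, ∀ a : A, ∃ g ∈ S, f ≤ g ∧ a ∈ g.cod)

/-- `f` is the map `a i ↦ b i`. -/
structure Rep (f : L.PartialEquiv M N) {ι : Type} (a : ι → M) (b : ι → N) : Prop where
  dom : ∀ x, x ∈ f.dom ↔ ∃ i, a i = x
  cod : ∀ x, x ∈ f.cod ↔ ∃ i, b i = x
  map : ∀ i (h : a i ∈ f.dom), ((f.toEquiv ⟨a i, h⟩ : f.cod) : N) = b i

theorem exists_rep [L.IsRelational] {ι : Type} (a : ι → M) (b : ι → N) (ha : Injective a)
    (hb : Injective b)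
    (hR : ∀ n (R : L.Relations n) (x : Fin n → ι), RelMap R (a ∘ x) ↔ RelMap R (b ∘ x)) :
    ∃ f : L.PartialEquiv M N, Rep f a b := by
  let D : L.Substructure M := ⟨Set.range a, fun f => isEmptyElim f⟩
  let E : L.Substructure N := ⟨Set.range b, fun f => isEmptyElim f⟩
  let e : D ≃ E := (Equiv.ofInjective a ha).symm.trans (Equiv.ofInjective b hb)
  have he : ∀ i (h : a i ∈ D), ((e ⟨a i, h⟩ : E) : N) = b i := by
    intro i h
    have : (Equiv.ofInjective a ha).symm ⟨a i, h⟩ = i := by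
      rw [Equiv.symm_apply_eq]
      rfl
    change (((Equiv.ofInjective b hb) ((Equiv.ofInjective a ha).symm ⟨a i, h⟩) :
      Set.range b) : N) = b i
    rw [this]
    rfl
  refine ⟨⟨D, E, ⟨e, fun f => isEmptyElim f, ?_⟩⟩, ?_, ?_, ?_⟩
  · intro n R x
    have hx : ∀ j, ∃ i, a i = (x j : M) := fun j => (x j).2
    choose y hy using hx
    have h1 : RelMap R x ↔ RelMap R (a ∘ y) := by
      have : a ∘ y = fun j => (x j : M) := by ext j; exact hy j
      rw [this]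
      rfl
    have h2 : RelMap R (e ∘ x) ↔ RelMap R (b ∘ y) := by
      have : b ∘ y = fun j => (e (x j) : N) := by
        ext j
        have h3 : x j = ⟨a (y j), by rw [hy]; exact (x j).2⟩ := Subtype.ext (hy j).symm
        rw [h3, he]
        rfl
      rw [this]
      rfl
    rw [h1, hR, ← h2]
    rfl
  · intro x; exact Iff.rfl
  · intro x; exact Iff.rfl
  · intro i h; exact he i h

theorem le_of_rep {f g : L.PartialEquiv M N} {ι ι' : Type} {a : ι → M} {b : ι → N}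
    {a' : ι' → M} {b' : ι' → N} (hf : Rep f a b) (hg : Rep g a' b') (e : ι → ι')
    (ha : ∀ i, a i = a' (e i)) (hb : ∀ i, b i = b' (e i)) : f ≤ g := by
  have hd : f.dom ≤ g.dom := by
    intro x hx
    obtain ⟨i, rfl⟩ := (hf.dom x).1 hx
    rw [ha]
    exact (hg.dom _).2 ⟨_, rfl⟩
  refine ⟨hd, ?_⟩
  ext ⟨x, hx⟩
  obtain ⟨i, rfl⟩ := (hf.dom x).1 hx
  have h1 := hf.map i hx
  have h2 := hg.map (e i) (by rw [← ha]; exact hd hx)
  change ((g.toEquiv ⟨a i, hd hx⟩ : g.cod) : N) = ((f.toEquiv ⟨a i, hx⟩ : f.cod) : N)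
  rw [h1, hb, ← h2]
  congr 2
  exact Subtype.ext (ha i)

/-- Back-and-forth equivalence from tuples. -/
theorem bfe_of [L.IsRelational] {St : Type} (ix : St → Type) [∀ s, Finite (ix s)]
    (a : (s : St) → ix s → M) (b : (s : St) → ix s → N) (s0 : St)
    (ha : ∀ s, Injective (a s)) (hb : ∀ s, Injective (b s))
    (hR : ∀ s n (R : L.Relations n) (x : Fin n → ix s),
      RelMap R (a s ∘ x) ↔ RelMap R (b s ∘ x))
    (forth : ∀ s (m : M), ∃ s', (∃ e : ix s → ix s', (∀ i, a s i = a s' (e i)) ∧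
      ∀ i, b s i = b s' (e i)) ∧ ∃ i, a s' i = m)
    (back : ∀ s (m : N), ∃ s', (∃ e : ix s → ix s', (∀ i, a s i = a s' (e i)) ∧
      ∀ i, b s i = b s' (e i)) ∧ ∃ i, b s' i = m) : BFE L M N := by
  have key : ∀ s, ∃ f : L.PartialEquiv M N, Rep f (a s) (b s) := fun s =>
    exists_rep _ _ (ha s) (hb s) (hR s)
  refine ⟨{f | ∃ s, Rep f (a s) (b s)}, ?_, ?_, ?_, ?_⟩
  · obtain ⟨f, hf⟩ := key s0
    exact ⟨f, s0, hf⟩
  · rintro f ⟨s, hf⟩
    have : Finite f.dom := by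
      have h1 : (f.dom : Set M) = Set.range (a s) := by
        ext x; exact hf.dom x
      have h2 : (Set.range (a s)).Finite := Set.finite_range _
      rw [← h1] at h2
      exact h2.to_subtype
    exact Substructure.FG.of_finite
  · rintro f ⟨s, hf⟩ m
    obtain ⟨s', ⟨e, h1, h2⟩, h3⟩ := forth s m
    obtain ⟨g, hg⟩ := key s'
    exact ⟨g, ⟨s', hg⟩, le_of_rep hf hg e h1 h2, (hg.dom _).2 h3⟩
  · rintro f ⟨s, hf⟩ m
    obtain ⟨s', ⟨e, h1, h2⟩, h3⟩ := back s m
    obtain ⟨g, hg⟩ := key s'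
    exact ⟨g, ⟨s', hg⟩, le_of_rep hf hg e h1 h2, (hg.cod _).2 h3⟩

/-- Finite configurations can be pulled back along a back-and-forth system. -/
theorem pull {S : Set (L.PartialEquiv M N)}
    (hback : ∀ f ∈ S, ∀ a : N, ∃ g ∈ S, f ≤ g ∧ a ∈ g.cod) {f : L.PartialEquiv M N} (hf : f ∈ S)
    (F : Set N) (hF : F.Finite) : ∃ g ∈ S, f ≤ g ∧ ∀ x ∈ F, x ∈ g.cod := by
  refine Set.Finite.induction_on F hF ⟨f, hf, le_rfl, by simp⟩ ?_
  rintro a F - - ⟨g, hg, hfg, h⟩
  obtain ⟨g', hg', hgg', ha⟩ := hback g hg a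
  refine ⟨g', hg', hfg.trans hgg', ?_⟩
  intro x hx
  rcases hx with rfl | hx
  · exact ha
  · exact PartialEquiv.cod_le_cod hgg' (h x hx)

/-- The relations are preserved by the inverse. -/
theorem rel_symm (g : L.PartialEquiv M N) {n : ℕ} (R : L.Relations n) (x : Fin n → g.cod) :
    RelMap R (fun i => ((g.toEquiv.symm (x i) : g.dom) : M)) ↔ RelMap R (fun i => (x i : N)) := by
  have h1 := g.toEquiv.symm.map_rel R x
  exact h1

end Pool.Agent.TH767
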