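import Mathlib
import Pool.Agent.TH767.Model
import Pool.Agent.TH767.Rep

/-!
The language and the structures; any two models are back-and-forth equivalent; every structure
back-and-forth equivalent to a model has size at most `ℶ_ ω`.
-/

namespace Pool.Agent.TH767

open FirstOrder FirstOrder.Language FirstOrder.Language.Structure Function

/-- The relation symbols. -/
inductive Rl : ℕ → Type
  | isP : Rl 1
  | proj : Rl 2
  | col (k d : ℕ) : Rl (k+2)

/-- The language. -/
def Lg : FirstOrder.Language.{0,0} := ⟨fun _ => Empty, Rl⟩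

instance : Lg.IsRelational := fun _ => inferInstanceAs (IsEmpty Empty)

theorem card_Lg : Lg.card ≤ Cardinal.aleph0 := by
  have h1 : Countable (Σ n, Rl n) := by
    let f : Bool ⊕ (ℕ × ℕ) → (Σ n, Rl n) := fun z => match z with
      | Sum.inl true => ⟨1, Rl.isP⟩
      | Sum.inl false => ⟨2, Rl.proj⟩
      | Sum.inr (k, d) => ⟨k+2, Rl.col k d⟩
    refine Function.Surjective.countable (f := f) ?_
    rintro ⟨n, R⟩
    cases R with
    | isP => exact ⟨Sum.inl true, rfl⟩
    | proj => exact ⟨Sum.inl false, rfl⟩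
    | col k d => exact ⟨Sum.inr (k, d), rfl⟩
  have h2 : Countable (Σ n, Lg.Functions n) := by
    have : IsEmpty (Σ n, Lg.Functions n) := ⟨fun z => Empty.elim z.2⟩
    infer_instance
  have h3 : Countable (Σ n, Lg.Relations n) := h1
  have h4 : Countable Lg.Symbols := by
    unfold FirstOrder.Language.Symbols
    infer_instance
  exact Cardinal.mk_le_aleph0

/-- The carrier of a structure. -/
def Car {V P : Type} (_ : V → P) (_ : Col V) : Type := V ⊕ P

/-- Interpretation of the relation symbols. -/
def interp {V P : Type} (π : V → P) (c : Col V) : {n : ℕ} → Rl n → (Fin n → Car π c) → Prop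
  | _, Rl.isP, a => ∃ p, a 0 = Sum.inr p
  | _, Rl.proj, a => ∃ v, a 0 = Sum.inl v ∧ a 1 = Sum.inr (π v)
  | _, Rl.col k d, a => ∃ u : Fin (k+2) → V, Injective u ∧ (∀ i, a i = Sum.inl (u i)) ∧
      c (k+2) u = d

instance {V P : Type} (π : V → P) (c : Col V) : Lg.Structure (Car π c) where
  funMap f := Empty.elim f
  RelMap R a := interp π c R a

section Eqv

variable {V P V' P' : Type} {π : V → P} {c : Col V} {π' : V' → P'} {c' : Col V'}

/-- Good colourings pull back along injective tuples. -/
theorem good_comp (hc : Good c) {m : ℕ} (s : Fin m → V) (hs : Injective s) :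
    Good (fun k (t : Fin k → Fin m) => c k (s ∘ t)) := by
  intro n x y q hb
  refine hc n _ _ _ (hb.map s Set.univ hs.injOn ?_ trivial trivial (fun _ => trivial))
  intro k _ t _ _
  rfl

/-- The extension property for pairs of tuples. -/
theorem ext_pair (hM : Good c) (hM' : Mdl π' c') {m : ℕ} (s : Fin m → V) (s' : Fin m → V')
    (hs : Injective s) (hs' : Injective s')
    (hcol : ∀ k, 2 ≤ k → ∀ t : Fin k → Fin m, Injective t → c k (s ∘ t) = c' k (s' ∘ t))
    (v : V) (hv : ∀ i, s i ≠ v) (p' : P') :
    ∃ v', (∀ i, s' i ≠ v') ∧ π' v' = p' ∧ ∀ k, 2 ≤ k → ∀ t : Fin k → Fin (m+1), Injective t →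
      c k ((Fin.snoc s v : Fin (m+1) → V) ∘ t) = c' k ((Fin.snoc s' v' : Fin (m+1) → V') ∘ t) := by
  have hsn : Injective (Fin.snoc s v : Fin (m+1) → V) := by
    rw [Fin.snoc_injective_iff]
    exact ⟨hs, by rintro ⟨i, hi⟩; exact hv i hi⟩
  obtain ⟨v', h1, h2, h3⟩ := hM'.ext s' hs' p' _ (good_comp hM _ hsn) (by
    intro k hk t ht
    rw [← hcol k hk t ht]
    congr 1
    ext i
    simp)
  exact ⟨v', h1, h2, fun k hk t ht => (h3 k hk t ht).symm⟩

variable (π c π' c') in
/-- States of the back-and-forth. -/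
structure State where
  m : ℕ
  n : ℕ
  s : Fin m → V
  s' : Fin m → V'
  r : Fin n → P
  r' : Fin n → P'
  d : Fin m → Fin n
  hs : Injective s
  hs' : Injective s'
  hr : Injective r
  hr' : Injective r'
  hd : ∀ i, π (s i) = r (d i)
  hd' : ∀ i, π' (s' i) = r' (d i)
  hcol : ∀ k, 2 ≤ k → ∀ t : Fin k → Fin m, Injective t → c k (s ∘ t) = c' k (s' ∘ t)

/-- The symmetric state. -/
def State.symm (S : State π c π' c') : State π' c' π c where
  m := S.m
  n := S.n
  s := S.s'
  s' := S.s
  r := S.r'
  r' := S.r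
  d := S.d
  hs := S.hs'
  hs' := S.hs
  hr := S.hr'
  hr' := S.hr
  hd := S.hd'
  hd' := S.hd
  hcol k hk t ht := (S.hcol k hk t ht).symm

/-- The index type of a state. -/
abbrev State.ix (S : State π c π' c') : Type := Fin S.m ⊕ Fin S.n

/-- The left tuple of a state. -/
def State.a (S : State π c π' c') : S.ix → Car π c := Sum.map S.s S.r

/-- The right tuple of a state. -/
def State.b (S : State π c π' c') : S.ix → Car π' c' := Sum.map S.s' S.r'

/-- Extension of states. -/
def Ex (S S' : State π c π' c') : Prop :=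
  ∃ e : S.ix → S'.ix, (∀ i, S.a i = S'.a (e i)) ∧ ∀ i, S.b i = S'.b (e i)

theorem Ex.refl (S : State π c π' c') : Ex S S := ⟨id, fun _ => rfl, fun _ => rfl⟩

theorem Ex.trans {S S' S'' : State π c π' c'} (h : Ex S S') (h' : Ex S' S'') : Ex S S'' := by
  obtain ⟨e, h1, h2⟩ := h
  obtain ⟨e', h1', h2'⟩ := h'
  exact ⟨e' ∘ e, fun i => (h1 i).trans (h1' _), fun i => (h2 i).trans (h2' _)⟩

theorem State.extP (hM' : Mdl π' c') (S : State π c π' c') (p : P) :
    ∃ S' : State π c π' c', Ex S S' ∧ ∃ j, S'.r j = p := by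
  by_cases hp : ∃ j, S.r j = p
  · exact ⟨S, Ex.refl S, hp⟩
  push Not at hp
  have := hM'.inf
  obtain ⟨p', hp'⟩ : ∃ p', ∀ j, S.r' j ≠ p' := by
    have h1 : (Set.range S.r').Finite := Set.finite_range _
    obtain ⟨p', hp'⟩ := h1.exists_notMem
    exact ⟨p', fun j h => hp' ⟨j, h⟩⟩
  have e1 : ∀ i, (Fin.snoc S.r p : Fin (S.n+1) → P) i.castSucc = S.r i :=
    fun i => by rw [Fin.snoc_castSucc]
  have e2 : ∀ i, (Fin.snoc S.r' p' : Fin (S.n+1) → P') i.castSucc = S.r' i :=
    fun i => by rw [Fin.snoc_castSucc]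
  have e3 : (Fin.snoc S.r p : Fin (S.n+1) → P) (Fin.last _) = p := by rw [Fin.snoc_last]
  refine ⟨{ m := S.m
            n := S.n + 1
            s := S.s
            s' := S.s'
            r := Fin.snoc S.r p
            r' := Fin.snoc S.r' p'
            d := fun i => (S.d i).castSucc
            hs := S.hs
            hs' := S.hs'
            hr := by
              rw [Fin.snoc_injective_iff]
              exact ⟨S.hr, by rintro ⟨i, hi⟩; exact hp i hi⟩
            hr' := by
              rw [Fin.snoc_injective_iff]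
              exact ⟨S.hr', by rintro ⟨i, hi⟩; exact hp' i hi⟩
            hd := fun i => by rw [Fin.snoc_castSucc]; exact S.hd i
            hd' := fun i => by rw [Fin.snoc_castSucc]; exact S.hd' i
            hcol := S.hcol }, ?_, ?_⟩
  · refine ⟨Sum.map id Fin.castSucc, ?_, ?_⟩
    · rintro (i | i)
      · rfl
      · exact congrArg Sum.inr (e1 i).symm
    · rintro (i | i)
      · rfl
      · exact congrArg Sum.inr (e2 i).symm
  · exact ⟨Fin.last _, e3⟩

theorem State.extV (hM : Good c) (hM' : Mdl π' c') (S : State π c π' c') (v : V) :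
    ∃ S' : State π c π' c', Ex S S' ∧ ∃ j, S'.s j = v := by
  obtain ⟨S, hSS, j, hj⟩ := S.extP hM' (π v)
  by_cases hv : ∃ j, S.s j = v
  · exact ⟨S, hSS, hv⟩
  push Not at hv
  obtain ⟨v', h1, h2, h3⟩ := ext_pair hM hM' S.s S.s' S.hs S.hs' S.hcol v hv (S.r' j)
  have e1 : ∀ i, (Fin.snoc S.s v : Fin (S.m+1) → V) i.castSucc = S.s i :=
    fun i => by rw [Fin.snoc_castSucc]
  have e2 : ∀ i, (Fin.snoc S.s' v' : Fin (S.m+1) → V') i.castSucc = S.s' i :=
    fun i => by rw [Fin.snoc_castSucc]
  have e3 : (Fin.snoc S.s v : Fin (S.m+1) → V) (Fin.last _) = v := by rw [Fin.snoc_last]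
  refine ⟨{ m := S.m + 1
            n := S.n
            s := Fin.snoc S.s v
            s' := Fin.snoc S.s' v'
            r := S.r
            r' := S.r'
            d := Fin.snoc S.d j
            hs := by
              rw [Fin.snoc_injective_iff]
              exact ⟨S.hs, by rintro ⟨i, hi⟩; exact hv i hi⟩
            hs' := by
              rw [Fin.snoc_injective_iff]
              exact ⟨S.hs', by rintro ⟨i, hi⟩; exact h1 i hi⟩
            hr := S.hr
            hr' := S.hr'
            hd := fun i => by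
              induction i using Fin.lastCases with
              | last => simp only [Fin.snoc_last]; exact hj.symm
              | cast i => simp only [Fin.snoc_castSucc]; exact S.hd i
            hd' := fun i => by
              induction i using Fin.lastCases with
              | last => simp only [Fin.snoc_last]; exact h2
              | cast i => simp only [Fin.snoc_castSucc]; exact S.hd' i
            hcol := h3 }, hSS.trans ?_, ?_⟩
  · refine ⟨Sum.map Fin.castSucc id, ?_, ?_⟩
    · rintro (i | i)
      · exact congrArg Sum.inl (e1 i).symm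
      · rfl
    · rintro (i | i)
      · exact congrArg Sum.inl (e2 i).symm
      · rfl
  · exact ⟨Fin.last _, e3⟩

theorem State.forth (hM : Good c) (hM' : Mdl π' c') (S : State π c π' c') (x : Car π c) :
    ∃ S' : State π c π' c', Ex S S' ∧ ∃ i, S'.a i = x := by
  rcases x with v | p
  · obtain ⟨S', h, j, hj⟩ := S.extV hM hM' v
    exact ⟨S', h, Sum.inl j, congrArg Sum.inl hj⟩
  · obtain ⟨S', h, j, hj⟩ := S.extP hM' p
    exact ⟨S', h, Sum.inr j, congrArg Sum.inr hj⟩

theorem State.back (hM : Mdl π c) (hM' : Good c') (S : State π c π' c') (x : Car π' c') :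
    ∃ S' : State π c π' c', Ex S S' ∧ ∃ i, S'.b i = x := by
  obtain ⟨S', ⟨e, h1, h2⟩, h3⟩ := S.symm.forth hM' hM x
  exact ⟨S'.symm, ⟨e, h2, h1⟩, h3⟩

theorem State.rel_imp (S : State π c π' c') {n : ℕ} (R : Rl n) (x : Fin n → S.ix)
    (h : interp π c R (S.a ∘ x)) : interp π' c' R (S.b ∘ x) := by
  have inl_of : ∀ i v, S.a i = Sum.inl v → ∃ j, i = Sum.inl j ∧ S.s j = v := by
    rintro (j | j) v h
    · exact ⟨j, rfl, Sum.inl.inj h⟩
    · exact absurd h (by intro h'; cases h')
  have inr_of : ∀ i p, S.a i = Sum.inr p → ∃ j, i = Sum.inr j ∧ S.r j = p := by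
    rintro (j | j) v h
    · exact absurd h (by intro h'; cases h')
    · exact ⟨j, rfl, Sum.inr.inj h⟩
  cases R with
  | isP =>
    obtain ⟨p, hp⟩ := h
    obtain ⟨j, hj, -⟩ := inr_of _ _ hp
    refine ⟨S.r' j, ?_⟩
    change S.b (x 0) = _
    rw [hj]
    rfl
  | proj =>
    obtain ⟨v, hv, hp⟩ := h
    obtain ⟨i, hi, hi'⟩ := inl_of _ _ hv
    obtain ⟨j, hj, hj'⟩ := inr_of _ _ hp
    refine ⟨S.s' i, ?_, ?_⟩
    · change S.b (x 0) = _
      rw [hi]
      rfl
    · change S.b (x 1) = _
      rw [hj]
      change Sum.inr (S.r' j) = _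
      rw [S.hd']
      congr 2
      apply S.hr
      rw [hj', ← S.hd, hi']
  | col k d =>
    obtain ⟨u, hu, hua, hd⟩ := h
    have h1 : ∀ i, ∃ j, x i = Sum.inl j ∧ S.s j = u i := fun i => inl_of _ _ (hua i)
    choose t ht ht' using h1
    have hti : Injective t := by
      intro i j hij
      apply hu
      rw [← ht' i, ← ht' j, hij]
    refine ⟨S.s' ∘ t, S.hs'.comp hti, ?_, ?_⟩
    · intro i
      change S.b (x i) = _
      rw [ht]
      rfl
    · rw [← S.hcol (k+2) (by omega) t hti]
      have : S.s ∘ t = u := by ext i; exact ht' i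
      rw [this]
      exact hd

theorem State.a_inj (S : State π c π' c') : Injective S.a := by
  unfold State.a
  exact Sum.map_injective.2 ⟨S.hs, S.hr⟩

/-- Any two models are back-and-forth equivalent. -/
theorem bfe_mdl (hM : Mdl π c) (hM' : Mdl π' c') : BFE Lg (Car π c) (Car π' c') := by
  refine bfe_of (St := State π c π' c') State.ix State.a State.b
    { m := 0
      n := 0
      s := Fin.elim0
      s' := Fin.elim0
      r := Fin.elim0
      r' := Fin.elim0
      d := Fin.elim0
      hs := fun i => i.elim0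
      hs' := fun i => i.elim0
      hr := fun i => i.elim0
      hr' := fun i => i.elim0
      hd := fun i => i.elim0
      hd' := fun i => i.elim0
      hcol := fun k hk t _ => (t ⟨0, by omega⟩).elim0 }
    (fun S => S.a_inj) (fun S => S.symm.a_inj) ?_ ?_ ?_
  · intro S n R x
    exact ⟨fun h => S.rel_imp R x h, fun h => S.symm.rel_imp R x h⟩
  · intro S x
    exact S.forth hM.good hM' x
  · intro S x
    exact S.back hM hM'.good x

end Eqv

end Pool.Agent.TH767
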