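import Mathlib
import Pool.Agent.TH767.BF

/-!
The bound for arbitrary structures back-and-forth equivalent to a model, and the homogeneity of
the countable model.
-/

namespace Pool.Agent.TH767

open FirstOrder FirstOrder.Language FirstOrder.Language.Structure Function

section Bounding

variable {V P : Type} {π : V → P} {c : Col V}

theorem Mdl.exists_over (hM : Mdl π c) (p : P) : ∃ v, π v = p := by
  obtain ⟨v, -, h, -⟩ := hM.ext (m := 0) Fin.elim0 (fun i => i.elim0) p
    (fun _ _ => 0) (by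
      intro n x y q hb
      exact hb.ne (Fin.ext (by omega))) (by
      intro k hk t _
      exact (t ⟨0, by omega⟩).elim0)
  exact ⟨v, h⟩

theorem symm_of_le {M N : Type} [Lg.Structure M] [Lg.Structure N] {g g' : Lg.PartialEquiv M N}
    (h : g ≤ g') {a : N} (ha : a ∈ g.cod) :
    ((g'.toEquiv.symm ⟨a, PartialEquiv.cod_le_cod h ha⟩ : g'.dom) : M) =
      ((g.toEquiv.symm ⟨a, ha⟩ : g.dom) : M) := by
  have h1 := PartialEquiv.toEquiv_inclusion_apply h (g.toEquiv.symm ⟨a, ha⟩)
  rw [g.toEquiv.apply_symm_apply] at h1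
  have h2 : g'.toEquiv.symm ⟨a, PartialEquiv.cod_le_cod h ha⟩ =
      Substructure.inclusion (PartialEquiv.dom_le_dom h) (g.toEquiv.symm ⟨a, ha⟩) := by
    apply g'.toEquiv.injective
    rw [g'.toEquiv.apply_symm_apply, h1]
    rfl
  rw [h2]
  rfl

open Classical in
/-- The colouring read off a structure. -/
noncomputable def cA {A : Type} [Lg.Structure A] (W : A → Prop) :
    Col {a : A // W a}
  | 0, _ => 0
  | 1, _ => 0
  | (j+2), t => if h : ∃ d, RelMap (L := Lg) (Rl.col j d : Lg.Relations (j+2))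
      (fun i => (t i : A)) then h.choose else 0

open Classical in
theorem cA_two {A : Type} [Lg.Structure A] (W : A → Prop) (j : ℕ)
    (t : Fin (j+2) → {a : A // W a}) :
    cA W (j+2) t = if h : ∃ d, RelMap (L := Lg) (Rl.col j d : Lg.Relations (j+2))
      (fun i => (t i : A)) then h.choose else 0 := rfl

theorem good_cA (hM : Mdl π c) {A : Type} [Lg.Structure A] (h : BFE Lg (Car π c) A) :
    Good (cA (fun a : A => ¬ RelMap (L := Lg) (Rl.isP : Lg.Relations 1) ![a])) := by
  obtain ⟨S, ⟨f0, hf0⟩, -, -, hback⟩ := h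
  intro n x y q hb
  obtain ⟨g, -, -, hg⟩ := pull hback hf0
    (insert x.1 (insert y.1 (Set.range (fun j => (q j).1))))
    (((Set.finite_range _).insert _).insert _)
  have hx : x.1 ∈ g.cod := hg _ (by simp)
  have hy : y.1 ∈ g.cod := hg _ (by simp)
  have hq : ∀ j, (q j).1 ∈ g.cod := fun j => hg _ (by simp)
  have hf : ∀ z : {a : A // ¬ RelMap (L := Lg) (Rl.isP : Lg.Relations 1) ![a]},
      ∃ v : V, ∀ hz : z.1 ∈ g.cod, ((g.toEquiv.symm ⟨z.1, hz⟩ : g.dom) : Car π c) = Sum.inl v := by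
    intro z
    by_cases hz : z.1 ∈ g.cod
    · rcases hv : ((g.toEquiv.symm ⟨z.1, hz⟩ : g.dom) : Car π c) with v | p
      · exact ⟨v, fun _ => hv⟩
      · exfalso
        apply z.2
        have h1 := rel_symm g (Rl.isP : Lg.Relations 1) ![⟨z.1, hz⟩]
        have h2 : (fun i => ((![⟨z.1, hz⟩] : Fin 1 → g.cod) i : A)) = ![z.1] := by
          ext i; fin_cases i; rfl
        rw [h2] at h1
        rw [← h1]
        exact ⟨p, hv⟩
    · have := hM.inf
      obtain ⟨v, -⟩ := hM.exists_over (Classical.arbitrary P)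
      exact ⟨v, fun hz' => absurd hz' hz⟩
  choose f hf using hf
  refine hM.good n _ _ _ (hb.map f {z | z.1 ∈ g.cod} ?_ ?_ hx hy hq)
  · intro z hz w hw hzw
    have h1 := hf z hz
    have h2 := hf w hw
    rw [hzw, ← h2] at h1
    have h3 := g.toEquiv.symm.injective (Subtype.ext h1)
    exact Subtype.ext (Subtype.mk.inj h3)
  · intro k hk t ht hD
    obtain ⟨j, rfl⟩ : ∃ j, k = j + 2 := ⟨k - 2, by omega⟩
    have key : ∀ d, RelMap (L := Lg) (Rl.col j d : Lg.Relations (j+2))
        (fun i => (t i : A)) ↔ c (j+2) (f ∘ t) = d := by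
      intro d
      rw [← rel_symm g (Rl.col j d : Lg.Relations (j+2)) (fun i => ⟨(t i : A), hD i⟩)]
      have h1 : (fun i => ((g.toEquiv.symm ⟨(t i : A), hD i⟩ : g.dom) : Car π c)) =
          fun i => (Sum.inl (f (t i)) : Car π c) := by
        funext i
        exact hf (t i) (hD i)
      rw [h1]
      constructor
      · rintro ⟨u, hu, hua, hd⟩
        have : f ∘ t = u := by
          funext i
          exact Sum.inl.inj (hua i)
        rw [this]
        exact hd
      · intro hd
        refine ⟨f ∘ t, ?_, fun i => rfl, hd⟩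
        intro a b hab
        apply ht
        have h2 := hf (t a) (hD a)
        have h3 := hf (t b) (hD b)
        have hab' : f (t a) = f (t b) := hab
        rw [hab', ← h3] at h2
        have h4 := g.toEquiv.symm.injective (Subtype.ext h2)
        exact Subtype.ext (Subtype.mk.inj h4)
    have hex : ∃ d, RelMap (L := Lg) (Rl.col j d : Lg.Relations (j+2))
        (fun i => (t i : A)) := ⟨_, (key _).2 rfl⟩
    have h5 : cA (fun a : A => ¬ RelMap (L := Lg) (Rl.isP : Lg.Relations 1) ![a]) (j+2) t =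
        hex.choose := by
      rw [cA_two, dif_pos hex]
    rw [h5]
    exact (key _).1 hex.choose_spec

theorem card_le_of_bfe (hM : Mdl π c) {A : Type} [Lg.Structure A]
    (h : BFE Lg (Car π c) A) : Cardinal.mk A ≤ Cardinal.beth Ordinal.omega0 := by
  have h1 := card_le_of_good _ (good_cA hM h)
  obtain ⟨S, ⟨f0, hf0⟩, -, hforth, hback⟩ := h
  have h2 : ∀ a : {a : A // RelMap (L := Lg) (Rl.isP : Lg.Relations 1) ![a]},
      ∃ v : {a : A // ¬ RelMap (L := Lg) (Rl.isP : Lg.Relations 1) ![a]},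
        RelMap (L := Lg) (Rl.proj : Lg.Relations 2) ![v.1, a.1] := by
    rintro ⟨a, haP⟩
    obtain ⟨g, hg, -, ha⟩ := hback f0 hf0 a
    have e1 := rel_symm g (Rl.isP : Lg.Relations 1) ![⟨a, ha⟩]
    have e2 : (fun i => ((![⟨a, ha⟩] : Fin 1 → g.cod) i : A)) = ![a] := by
      ext i; fin_cases i; rfl
    rw [e2] at e1
    obtain ⟨p, hp⟩ := e1.2 haP
    have hp' : ((g.toEquiv.symm ⟨a, ha⟩ : g.dom) : Car π c) = Sum.inr p := hp
    obtain ⟨v, hv⟩ := hM.exists_over p
    obtain ⟨g', hg', hgg, hvd⟩ := hforth g hg (Sum.inl v)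
    have ha' := PartialEquiv.cod_le_cod hgg ha
    have e3 := symm_of_le hgg ha
    rw [hp'] at e3
    let w : g'.cod := g'.toEquiv ⟨Sum.inl v, hvd⟩
    have ew : ((g'.toEquiv.symm w : g'.dom) : Car π c) = Sum.inl v := by
      change ((g'.toEquiv.symm (g'.toEquiv ⟨Sum.inl v, hvd⟩) : g'.dom) : Car π c) = Sum.inl v
      rw [g'.toEquiv.symm_apply_apply]
    refine ⟨⟨w, ?_⟩, ?_⟩
    · have e4 := rel_symm g' (Rl.isP : Lg.Relations 1) ![w]
      have e5 : (fun i => ((![w] : Fin 1 → g'.cod) i : A)) = ![(w : A)] := by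
        ext i; fin_cases i; rfl
      rw [e5] at e4
      rw [← e4]
      rintro ⟨p', hp'⟩
      have : ((g'.toEquiv.symm w : g'.dom) : Car π c) = Sum.inr p' := hp'
      rw [ew] at this
      exact absurd this (by intro h; cases h)
    · have e4 := rel_symm g' (Rl.proj : Lg.Relations 2) ![w, ⟨a, ha'⟩]
      have e5 : (fun i => ((![w, ⟨a, ha'⟩] : Fin 2 → g'.cod) i : A)) = ![(w : A), a] := by
        ext i; fin_cases i <;> rfl
      rw [e5] at e4
      rw [← e4]
      refine ⟨v, ew, ?_⟩
      rw [hv]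
      exact e3
  have h3 : ∀ (v a b : A), RelMap (L := Lg) (Rl.proj : Lg.Relations 2) ![v, a] →
      RelMap (L := Lg) (Rl.proj : Lg.Relations 2) ![v, b] → a = b := by
    intro v a b hva hvb
    obtain ⟨g, -, -, hg⟩ := pull hback hf0 {v, a, b} (by simp)
    have hv : v ∈ g.cod := hg _ (by simp)
    have ha : a ∈ g.cod := hg _ (by simp)
    have hb : b ∈ g.cod := hg _ (by simp)
    have key : ∀ a (ha : a ∈ g.cod), RelMap (L := Lg) (Rl.proj : Lg.Relations 2) ![v, a] →
        ∃ v0, ((g.toEquiv.symm ⟨v, hv⟩ : g.dom) : Car π c) = Sum.inl v0 ∧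
          ((g.toEquiv.symm ⟨a, ha⟩ : g.dom) : Car π c) = Sum.inr (π v0) := by
      intro a ha h
      have e4 := rel_symm g (Rl.proj : Lg.Relations 2) ![⟨v, hv⟩, ⟨a, ha⟩]
      have e5 : (fun i => ((![⟨v, hv⟩, ⟨a, ha⟩] : Fin 2 → g.cod) i : A)) = ![v, a] := by
        ext i; fin_cases i <;> rfl
      rw [e5] at e4
      exact e4.2 h
    obtain ⟨v0, h4, h5⟩ := key a ha hva
    obtain ⟨v1, h6, h7⟩ := key b hb hvb
    have h8 : v0 = v1 := by
      rw [h4] at h6
      exact Sum.inl.inj h6
    rw [← h8, ← h5] at h7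
    have h9 := g.toEquiv.symm.injective (Subtype.ext h7)
    exact (congrArg Subtype.val h9).symm
  choose F hF using h2
  have h4 : Cardinal.mk {a : A // RelMap (L := Lg) (Rl.isP : Lg.Relations 1) ![a]} ≤
      Cardinal.beth Ordinal.omega0 := by
    refine le_trans (Cardinal.mk_le_of_injective (f := F) ?_) h1
    intro a b hab
    have e1 := hF a
    rw [hab] at e1
    exact Subtype.ext (h3 _ _ _ e1 (hF b))
  have h5 := Cardinal.mk_sum_compl {a : A | RelMap (L := Lg) (Rl.isP : Lg.Relations 1) ![a]}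
  rw [← h5]
  exact Cardinal.add_le_of_le (Cardinal.aleph0_le_beth _) h4 h1

end Bounding

section Homog

variable {V P V' P' : Type} {π : V → P} {c : Col V} {π' : V' → P'} {c' : Col V'}

variable (π c π' c') in
/-- States for the construction of automorphisms. -/
structure HState (σ : P ≃ P') where
  m : ℕ
  s : Fin m → V
  s' : Fin m → V'
  hs : Injective s
  hs' : Injective s'
  hπ : ∀ i, π' (s' i) = σ (π (s i))
  hcol : ∀ k, 2 ≤ k → ∀ t : Fin k → Fin m, Injective t → c k (s ∘ t) = c' k (s' ∘ t)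

variable {σ : P ≃ P'}

/-- The symmetric state. -/
def HState.symm (S : HState π c π' c' σ) : HState π' c' π c σ.symm where
  m := S.m
  s := S.s'
  s' := S.s
  hs := S.hs'
  hs' := S.hs
  hπ i := by rw [S.hπ, Equiv.symm_apply_apply]
  hcol k hk t ht := (S.hcol k hk t ht).symm

/-- The symmetric state, the other way. -/
def HState.symm' (S : HState π' c' π c σ.symm) : HState π c π' c' σ where
  m := S.m
  s := S.s'
  s' := S.s
  hs := S.hs'
  hs' := S.hs
  hπ i := by rw [S.hπ, Equiv.apply_symm_apply]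
  hcol k hk t ht := (S.hcol k hk t ht).symm

/-- Extension. -/
def HEx (S S' : HState π c π' c' σ) : Prop :=
  ∃ e : Fin S.m → Fin S'.m, (∀ i, S.s i = S'.s (e i)) ∧ ∀ i, S.s' i = S'.s' (e i)

theorem HEx.refl (S : HState π c π' c' σ) : HEx S S := ⟨id, fun _ => rfl, fun _ => rfl⟩

theorem HEx.trans {S S' S'' : HState π c π' c' σ} (h : HEx S S') (h' : HEx S' S'') :
    HEx S S'' := by
  obtain ⟨e, h1, h2⟩ := h
  obtain ⟨e', h1', h2'⟩ := h'
  exact ⟨e' ∘ e, fun i => (h1 i).trans (h1' _), fun i => (h2 i).trans (h2' _)⟩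

theorem HState.forth (hM : Good c) (hM' : Mdl π' c') (S : HState π c π' c' σ) (v : V) :
    ∃ S' : HState π c π' c' σ, HEx S S' ∧ ∃ j, S'.s j = v := by
  by_cases hv : ∃ j, S.s j = v
  · exact ⟨S, HEx.refl S, hv⟩
  push Not at hv
  obtain ⟨v', h1, h2, h3⟩ := ext_pair hM hM' S.s S.s' S.hs S.hs' S.hcol v hv (σ (π v))
  have e1 : ∀ i, (Fin.snoc S.s v : Fin (S.m+1) → V) i.castSucc = S.s i :=
    fun i => by rw [Fin.snoc_castSucc]
  have e2 : ∀ i, (Fin.snoc S.s' v' : Fin (S.m+1) → V') i.castSucc = S.s' i :=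
    fun i => by rw [Fin.snoc_castSucc]
  have e3 : (Fin.snoc S.s v : Fin (S.m+1) → V) (Fin.last _) = v := by rw [Fin.snoc_last]
  refine ⟨{ m := S.m + 1
            s := Fin.snoc S.s v
            s' := Fin.snoc S.s' v'
            hs := by
              rw [Fin.snoc_injective_iff]
              exact ⟨S.hs, by rintro ⟨i, hi⟩; exact hv i hi⟩
            hs' := by
              rw [Fin.snoc_injective_iff]
              exact ⟨S.hs', by rintro ⟨i, hi⟩; exact h1 i hi⟩
            hπ := fun i => by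
              induction i using Fin.lastCases with
              | last => simp only [Fin.snoc_last]; exact h2
              | cast i => simp only [Fin.snoc_castSucc]; exact S.hπ i
            hcol := h3 }, ⟨Fin.castSucc, fun i => (e1 i).symm, fun i => (e2 i).symm⟩,
            ⟨Fin.last _, e3⟩⟩

theorem HState.step (hM : Mdl π c) (hM' : Mdl π' c') (S : HState π c π' c' σ) (v : V) (v' : V') :
    ∃ S' : HState π c π' c' σ, HEx S S' ∧ (∃ j, S'.s j = v) ∧ ∃ j, S'.s' j = v' := by
  obtain ⟨S1, hS1, j, hj⟩ := S.forth hM.good hM' v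
  obtain ⟨S2, ⟨e, h1, h2⟩, h3⟩ := S1.symm.forth hM'.good hM v'
  refine ⟨S2.symm', hS1.trans ⟨e, h2, h1⟩, ⟨e j, ?_⟩, h3⟩
  rw [← hj]
  exact (h2 j).symm

theorem exists_iso [Countable V] [Countable V'] (hM : Mdl π c) (hM' : Mdl π' c')
    (σ : P ≃ P') : ∃ g : V ≃ V', (∀ v, π' (g v) = σ (π v)) ∧
      ∀ k, 2 ≤ k → ∀ t : Fin k → V, Injective t → c' k (g ∘ t) = c k t := by
  have hne : Nonempty V := by
    have := hM.inf
    exact ⟨(hM.exists_over (Classical.arbitrary P)).choose⟩
  have hne' : Nonempty V' := by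
    have := hM'.inf
    exact ⟨(hM'.exists_over (Classical.arbitrary P')).choose⟩
  obtain ⟨ν, hν⟩ := exists_surjective_nat V
  obtain ⟨ν', hν'⟩ := exists_surjective_nat V'
  let S0 : HState π c π' c' σ :=
    { m := 0
      s := Fin.elim0
      s' := Fin.elim0
      hs := fun i => i.elim0
      hs' := fun i => i.elim0
      hπ := fun i => i.elim0
      hcol := fun k hk t _ => (t ⟨0, by omega⟩).elim0 }
  have hstep := fun (n : ℕ) (S : HState π c π' c' σ) => S.step hM hM' (ν n) (ν' n)
  choose nx hnx1 hnx2 hnx3 using hstep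
  let St : ℕ → HState π c π' c' σ := fun n => Nat.rec S0 (fun n S => nx n S) n
  have hSt : ∀ n, HEx (St n) (St (n+1)) := fun n => hnx1 n (St n)
  have hmono : ∀ a b, a ≤ b → HEx (St a) (St b) := by
    intro a b hab
    induction b, hab using Nat.le_induction with
    | base => exact HEx.refl _
    | succ b _ ih => exact ih.trans (hSt b)
  let Gr : V → V' → ℕ → Prop := fun v v' n => ∃ i, (St n).s i = v ∧ (St n).s' i = v'
  have hGr : ∀ v v' a b, a ≤ b → Gr v v' a → Gr v v' b := by
    rintro v v' a b hab ⟨i, hi, hi'⟩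
    obtain ⟨e, h1, h2⟩ := hmono a b hab
    exact ⟨e i, by rw [← h1, hi], by rw [← h2, hi']⟩
  have hGe : ∀ v, ∃ v' n, Gr v v' n := by
    intro v
    obtain ⟨n, rfl⟩ := hν v
    obtain ⟨j, hj⟩ := hnx2 n (St n)
    exact ⟨_, n+1, j, hj, rfl⟩
  have hGe' : ∀ v', ∃ v n, Gr v v' n := by
    intro v'
    obtain ⟨n, rfl⟩ := hν' v'
    obtain ⟨j, hj⟩ := hnx3 n (St n)
    exact ⟨_, n+1, j, rfl, hj⟩
  have hGf : ∀ v v' w' a b, Gr v v' a → Gr v w' b → v' = w' := by
    intro v v' w' a b h1 h2
    obtain ⟨i, hi, hi'⟩ := hGr _ _ _ _ (le_max_left a b) h1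
    obtain ⟨j, hj, hj'⟩ := hGr _ _ _ _ (le_max_right a b) h2
    have : i = j := (St (max a b)).hs (hi.trans hj.symm)
    subst this
    exact hi'.symm.trans hj'
  have hGi : ∀ v w v' a b, Gr v v' a → Gr w v' b → v = w := by
    intro v w v' a b h1 h2
    obtain ⟨i, hi, hi'⟩ := hGr _ _ _ _ (le_max_left a b) h1
    obtain ⟨j, hj, hj'⟩ := hGr _ _ _ _ (le_max_right a b) h2
    have : i = j := (St (max a b)).hs' (hi'.trans hj'.symm)
    subst this
    exact hi.symm.trans hj
  choose g gn hg using hGe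
  have hbij : Bijective g := by
    constructor
    · intro v w h
      have h1 := hg v
      rw [h] at h1
      exact hGi _ _ _ _ _ h1 (hg w)
    · intro v'
      obtain ⟨v, n, h⟩ := hGe' v'
      exact ⟨v, hGf _ _ _ _ _ (hg v) h⟩
  refine ⟨Equiv.ofBijective g hbij, ?_, ?_⟩
  · intro v
    obtain ⟨i, hi, hi'⟩ := hg v
    change π' (g v) = _
    rw [← hi', (St (gn v)).hπ, hi]
  · intro k hk t ht
    let N := Finset.univ.sup (fun i => gn (t i))
    have h1 : ∀ i, Gr (t i) (g (t i)) N := fun i =>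
      hGr _ _ _ _ (Finset.le_sup (f := fun i => gn (t i)) (Finset.mem_univ i)) (hg (t i))
    choose u hu hu' using h1
    have hui : Injective u := by
      intro i j hij
      apply ht
      rw [← hu i, ← hu j, hij]
    have h2 := (St N).hcol k hk u hui
    have h3 : (St N).s ∘ u = t := by funext i; exact hu i
    have h4 : (St N).s' ∘ u = g ∘ t := by funext i; exact hu' i
    rw [h3, h4] at h2
    exact h2.symm

theorem isP_iff {x : Car π c} :
    RelMap (L := Lg) (Rl.isP : Lg.Relations 1) ![x] ↔ ∃ p, x = Sum.inr p := Iff.rfl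

/-- The set `P` in the structure. -/
noncomputable def pEquiv (π : V → P) (c : Col V) :
    P ≃ {x : Car π c // RelMap (L := Lg) (Rl.isP : Lg.Relations 1) ![x]} :=
  Equiv.ofBijective (fun p => ⟨Sum.inr p, p, rfl⟩) (by
    constructor
    · intro p p' h
      exact Sum.inr.inj (congrArg Subtype.val h)
    · rintro ⟨x, p, hp⟩
      exact ⟨p, Subtype.ext hp.symm⟩)

theorem exists_aut [Countable V] (hM : Mdl π c)
    (σ : Equiv.Perm {x : Car π c // RelMap (L := Lg) (Rl.isP : Lg.Relations 1) ![x]}) :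
    ∃ e : Lg.Equiv (Car π c) (Car π c),
      ∀ x : {x : Car π c // RelMap (L := Lg) (Rl.isP : Lg.Relations 1) ![x]},
        e x.1 = (σ x).1 := by
  let τ : P ≃ P := (pEquiv π c).trans (σ.trans (pEquiv π c).symm)
  have hτ : ∀ p, (pEquiv π c) (τ p) = σ (pEquiv π c p) := by
    intro p
    simp [τ]
  obtain ⟨g, hg1, hg2⟩ := exists_iso hM hM τ
  let E : Car π c ≃ Car π c := Equiv.sumCongr g τ
  have hR : ∀ (g : V ≃ V) (τ : P ≃ P) (F : Car π c → Car π c),
      (∀ v, F (Sum.inl v) = Sum.inl (g v)) → (∀ p, F (Sum.inr p) = Sum.inr (τ p)) →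
      (∀ v, π (g v) = τ (π v)) →
      (∀ k, 2 ≤ k → ∀ t : Fin k → V, Injective t → c k (g ∘ t) = c k t) →
      ∀ {n : ℕ} (R : Rl n) (x : Fin n → Car π c), interp π c R x →
        interp π c R (F ∘ x) := by
    intro g τ F hF1 hF2 hg1 hg2 n R x h
    cases R with
    | isP =>
      obtain ⟨p, hp⟩ := h
      exact ⟨τ p, (congrArg F hp).trans (hF2 p)⟩
    | proj =>
      obtain ⟨v, hv, hp⟩ := h
      refine ⟨g v, (congrArg F hv).trans (hF1 v), ?_⟩
      refine (congrArg F hp).trans ((hF2 _).trans ?_)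
      rw [hg1]
    | col k d =>
      obtain ⟨u, hu, hua, hd⟩ := h
      refine ⟨g ∘ u, g.injective.comp hu, ?_, ?_⟩
      · intro i
        exact (congrArg F (hua i)).trans (hF1 _)
      · rw [hg2 _ (by omega) u hu]
        exact hd
  refine ⟨⟨E, fun f => Empty.elim f, ?_⟩, ?_⟩
  · intro n R x
    constructor
    · intro h
      have h1 := hR g.symm τ.symm E.symm (fun _ => rfl) (fun _ => rfl) (by
        intro v
        rw [Equiv.eq_symm_apply, ← hg1, Equiv.apply_symm_apply]) (by
        intro k hk t ht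
        rw [← hg2 k hk (g.symm ∘ t) (g.symm.injective.comp ht)]
        congr 1
        funext i
        simp) R _ h
      have h2 : E.symm ∘ (E ∘ x) = x := by
        funext i
        exact E.symm_apply_apply (x i)
      have h3 : interp π c R x := by
        rw [← h2]
        exact h1
      exact h3
    · intro h
      exact hR g τ E (fun _ => rfl) (fun _ => rfl) hg1 hg2 R x h
  · rintro ⟨x, p, hp⟩
    have hp' : x = Sum.inr p := hp
    subst hp'
    have h1 := hτ p
    exact congrArg Subtype.val h1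

end Homog

end Pool.Agent.TH767
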