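import Mathlib

set_option autoImplicit false

open Classical

namespace Pool.Agent.TH767.KTool

/-- greedy selection of disjoint paths: m is the last position which has to be new -/
lemma greedy {V : Type} (m ζ1 : ℕ) (Good : (ℕ → V) → Prop) (S1 Z0 : Finset V)
    (hSZ : S1 ⊆ Z0)
    (H : ∀ s ∈ S1, ∀ Y : Finset V, Y.card ≤ ζ1 → ∃ P : ℕ → V, P 0 = s ∧ Good P ∧
      (∀ i, 1 ≤ i → i ≤ m → P i ∉ Y) ∧ ∀ i i', i ≤ m → i' ≤ m → P i = P i' → i = i') :
    ∀ n : ℕ, n ≤ S1.card → Z0.card + n * (m + 1) ≤ ζ1 →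
    ∃ P : Fin n → ℕ → V, (∀ l, P l 0 ∈ S1 ∧ Good (P l) ∧ ∀ i, 1 ≤ i → i ≤ m → P l i ∉ Z0) ∧
      ∀ l l' i i', i ≤ m → i' ≤ m → P l i = P l' i' → l = l' ∧ i = i' := by
  intro n
  induction n with
  | zero => exact fun _ _ => ⟨fun l => l.elim0, fun l => l.elim0, fun l => l.elim0⟩
  | succ n ih =>
    intro hn hz
    obtain ⟨P, hP1, hP2⟩ := ih (by omega) (by nlinarith)
    have hlt : (Finset.univ.image (fun l : Fin n => P l 0)).card < S1.card := by
      refine lt_of_le_of_lt Finset.card_image_le ?_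
      rw [Finset.card_univ, Fintype.card_fin]
      omega
    obtain ⟨s, hs, hs'⟩ := Finset.exists_mem_notMem_of_card_lt_card hlt
    set Y : Finset V := Z0 ∪ (Finset.univ : Finset (Fin n × Fin (m + 1))).image
      (fun z => P z.1 z.2) with hY
    have hYc : Y.card ≤ ζ1 := by
      refine le_trans (Finset.card_union_le _ _) ?_
      have h2 : ((Finset.univ : Finset (Fin n × Fin (m + 1))).image
          (fun z => P z.1 z.2)).card ≤ n * (m + 1) := by
        refine le_trans Finset.card_image_le ?_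
        rw [Finset.card_univ, Fintype.card_prod, Fintype.card_fin, Fintype.card_fin]
      nlinarith
    obtain ⟨p, hp0, hpg, hpY, hpi⟩ := H s hs Y hYc
    have hPY : ∀ (l : Fin n) (i : ℕ), i ≤ m → P l i ∈ Y := by
      intro l i hi
      rw [hY]
      refine Finset.mem_union_right _ ?_
      exact Finset.mem_image.mpr ⟨(l, ⟨i, Nat.lt_succ_of_le hi⟩), Finset.mem_univ _, rfl⟩
    have hdis : ∀ (l : Fin n) (i i' : ℕ), i ≤ m → i' ≤ m → p i ≠ P l i' := by
      intro l i i' hi hi' he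
      rcases Nat.eq_zero_or_pos i with h0 | h0
      · subst h0
        rcases Nat.eq_zero_or_pos i' with h1 | h1
        · subst h1
          apply hs'
          rw [hp0] at he
          exact Finset.mem_image.mpr ⟨l, Finset.mem_univ _, he.symm⟩
        · have := (hP1 l).2.2 i' h1 hi'
          apply this
          rw [← he, hp0]
          exact hSZ hs
      · apply hpY i h0 hi
        rw [he]
        exact hPY l i' hi'
    refine ⟨Fin.snoc (α := fun _ => ℕ → V) P p, ?_, ?_⟩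
    · intro l
      refine Fin.lastCases ?_ ?_ l
      · rw [Fin.snoc_last]
        refine ⟨by rw [hp0]; exact hs, hpg, ?_⟩
        intro i h1 h2 h3
        apply hpY i h1 h2
        rw [hY]
        exact Finset.mem_union_left _ h3
      · intro j
        rw [Fin.snoc_castSucc]
        exact hP1 j
    · intro l l'
      refine Fin.lastCases ?_ ?_ l
      · refine Fin.lastCases ?_ ?_ l'
        · intro i i' hi hi' he
          rw [Fin.snoc_last] at he
          exact ⟨rfl, hpi i i' hi hi' he⟩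
        · intro j i i' hi hi' he
          rw [Fin.snoc_last, Fin.snoc_castSucc] at he
          exact absurd he (hdis j i i' hi hi')
      · intro j
        refine Fin.lastCases ?_ ?_ l'
        · intro i i' hi hi' he
          rw [Fin.snoc_last, Fin.snoc_castSucc] at he
          exact absurd he.symm (hdis j i' i hi' hi)
        · intro j' i i' hi hi' he
          rw [Fin.snoc_castSucc, Fin.snoc_castSucc] at he
          obtain ⟨h1, h2⟩ := hP2 j j' i i' hi hi' he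
          exact ⟨by rw [h1], h2⟩

/-- the leg move from single paths: every s in S1 can be joined to ρ avoiding any set of at most
ζ1 vertices in the interior -/
lemma leg_of {V : Type} (G : SimpleGraph V) (k ζ1 n' : ℕ) (S S1 Z : Finset V) (ρ : V)
    (hS1 : S1 ⊆ S) (hn : n' ≤ S1.card) (hζ : S.card + Z.card + 1 + n' * (k + 1) ≤ ζ1)
    (hρZ : ρ ∉ Z) (hρS : ρ ∉ S)
    (H : ∀ s ∈ S1, ∀ Y : Finset V, Y.card ≤ ζ1 → ∃ P : ℕ → V, P 0 = s ∧ P (k + 1) = ρ ∧
      (∀ i, i ≤ k → G.Adj (P i) (P (i + 1))) ∧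
      (∀ i, 1 ≤ i → i ≤ k → P i ∉ Y) ∧ ∀ i i', i ≤ k → i' ≤ k → P i = P i' → i = i') :
    ∃ ρ, ρ ∉ Z ∧ ρ ∉ S ∧ ∃ P : Fin n' → ℕ → V,
      (∀ l, P l 0 ∈ S ∧ P l (k + 1) = ρ ∧ (∀ i, i ≤ k → G.Adj (P l i) (P l (i + 1))) ∧
        ∀ i, 1 ≤ i → i ≤ k → P l i ∉ Z ∧ P l i ∉ S ∧ P l i ≠ ρ) ∧
      ∀ l l' i i', i ≤ k → i' ≤ k → P l i = P l' i' → l = l' ∧ i = i' := by
  have hc : (insert ρ (S ∪ Z)).card ≤ S.card + Z.card + 1 := by
    refine le_trans (Finset.card_insert_le _ _) ?_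
    have := Finset.card_union_le S Z
    omega
  obtain ⟨P, hP1, hP2⟩ := greedy k ζ1 (fun P => P (k + 1) = ρ ∧
      ∀ i, i ≤ k → G.Adj (P i) (P (i + 1))) S1 (insert ρ (S ∪ Z))
    (fun s hs => Finset.mem_insert_of_mem (Finset.mem_union_left _ (hS1 hs)))
    (fun s hs Y hY => by
      obtain ⟨P, h0, h1, h2, h3, h4⟩ := H s hs Y hY
      exact ⟨P, h0, ⟨h1, h2⟩, h3, h4⟩) n' hn (by omega)
  refine ⟨ρ, hρZ, hρS, P, ?_, hP2⟩
  intro l
  obtain ⟨h0, ⟨h1, h2⟩, h3⟩ := hP1 l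
  refine ⟨hS1 h0, h1, h2, ?_⟩
  intro i hi hi'
  have := h3 i hi hi'
  rw [Finset.mem_insert, Finset.mem_union, not_or, not_or] at this
  exact ⟨this.2.2, this.2.1, this.1⟩

/-- the core move from single paths; R is the relation for the new centre (Bd a' w') -/
lemma core_of {V : Type} (G : SimpleGraph V) (k ζ1 n' : ℕ) (S S1 Z : Finset V) (w' : V)
    (R : V → Prop)
    (hS1 : S1 ⊆ S) (hn : n' ≤ S1.card) (hζ : S.card + Z.card + 1 + n' * (k + 2) ≤ ζ1)
    (H : ∀ s ∈ S1, ∀ Y : Finset V, Y.card ≤ ζ1 → ∃ P : ℕ → V, P 0 = s ∧ R (P (k + 1)) ∧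
      (∀ i, i ≤ k → G.Adj (P i) (P (i + 1))) ∧
      (∀ i, 1 ≤ i → i ≤ k + 1 → P i ∉ Y) ∧
      ∀ i i', i ≤ k + 1 → i' ≤ k + 1 → P i = P i' → i = i') :
    ∃ P : Fin n' → ℕ → V,
      (∀ l, P l 0 ∈ S ∧ R (P l (k + 1)) ∧ (∀ i, i ≤ k → G.Adj (P l i) (P l (i + 1))) ∧
        ∀ i, 1 ≤ i → i ≤ k + 1 → P l i ∉ Z ∧ P l i ∉ S ∧ P l i ≠ w') ∧
      ∀ l l' i i', i ≤ k + 1 → i' ≤ k + 1 → P l i = P l' i' → l = l' ∧ i = i' := by
  have hc : (insert w' (S ∪ Z)).card ≤ S.card + Z.card + 1 := by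
    refine le_trans (Finset.card_insert_le _ _) ?_
    have := Finset.card_union_le S Z
    omega
  obtain ⟨P, hP1, hP2⟩ := greedy (k + 1) ζ1 (fun P => R (P (k + 1)) ∧
      ∀ i, i ≤ k → G.Adj (P i) (P (i + 1))) S1 (insert w' (S ∪ Z))
    (fun s hs => Finset.mem_insert_of_mem (Finset.mem_union_left _ (hS1 hs)))
    (fun s hs Y hY => by
      obtain ⟨P, h0, h1, h2, h3, h4⟩ := H s hs Y hY
      exact ⟨P, h0, ⟨h1, h2⟩, h3, h4⟩) n' hn (by
        have e : k + 1 + 1 = k + 2 := rfl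
        rw [e]
        omega)
  refine ⟨P, ?_, hP2⟩
  intro l
  obtain ⟨h0, ⟨h1, h2⟩, h3⟩ := hP1 l
  refine ⟨hS1 h0, h1, h2, ?_⟩
  intro i hi hi'
  have := h3 i hi hi'
  rw [Finset.mem_insert, Finset.mem_union, not_or, not_or] at this
  exact ⟨this.2.2, this.2.1, this.1⟩

/-- averaging with weights: if sum_x f s x >= A for every s in S, f s x <= W x and
sum_x W x <= c A, then for some x with W x > 0 a proportion 1 / (2 c) of the s have
f s x >= W x / (2 c) -/
lemma avg {α β : Type} (S : Finset α) (T : Finset β) (f : α → β → ℕ) (W : β → ℕ) (A c : ℕ)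
    (hS : S.Nonempty) (hA : 0 < A) (h1 : ∀ s ∈ S, A ≤ ∑ x ∈ T, f s x)
    (h2 : ∀ s ∈ S, ∀ x ∈ T, f s x ≤ W x) (h3 : ∑ x ∈ T, W x ≤ c * A) :
    ∃ x ∈ T, 0 < W x ∧
      S.card ≤ 2 * c * (S.filter (fun s => W x ≤ 2 * c * f s x)).card := by
  obtain ⟨s0, hs0⟩ := hS
  have hSpos : 0 < S.card := Finset.card_pos.mpr ⟨s0, hs0⟩
  have hTpos : ∃ x ∈ T, 0 < W x := by
    by_contra hcon
    push Not at hcon
    have : ∑ x ∈ T, f s0 x = 0 := by
      refine Finset.sum_eq_zero ?_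
      intro x hx
      have := h2 s0 hs0 x hx
      have := hcon x hx
      omega
    have := h1 s0 hs0
    omega
  have hex : ∃ x ∈ T, 0 < W x ∧ S.card * W x ≤ c * ∑ s ∈ S, f s x := by
    by_contra hcon
    push Not at hcon
    have hle : ∀ x ∈ T, c * ∑ s ∈ S, f s x ≤ S.card * W x := by
      intro x hx
      rcases Nat.eq_zero_or_pos (W x) with h0 | h0
      · have : ∑ s ∈ S, f s x = 0 := by
          refine Finset.sum_eq_zero ?_
          intro s hs
          have := h2 s hs x hx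
          omega
        rw [this]
        simp
      · exact (hcon x hx h0).le
    obtain ⟨x0, hx0, hx0'⟩ := hTpos
    have hlt : ∑ x ∈ T, c * ∑ s ∈ S, f s x < ∑ x ∈ T, S.card * W x :=
      Finset.sum_lt_sum hle ⟨x0, hx0, hcon x0 hx0 hx0'⟩
    rw [← Finset.mul_sum, ← Finset.mul_sum, Finset.sum_comm] at hlt
    have h5 : S.card * A ≤ ∑ s ∈ S, ∑ x ∈ T, f s x := by
      rw [← smul_eq_mul]
      exact Finset.card_nsmul_le_sum _ _ _ h1
    have h6 : c * (S.card * A) ≤ c * ∑ s ∈ S, ∑ x ∈ T, f s x := Nat.mul_le_mul_left _ h5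
    have h7 : S.card * ∑ x ∈ T, W x ≤ S.card * (c * A) := Nat.mul_le_mul_left _ h3
    have h8 : S.card * (c * A) = c * (S.card * A) := by ring
    omega
  obtain ⟨x, hx, hWx, hx2⟩ := hex
  refine ⟨x, hx, hWx, ?_⟩
  have hsplit : ∑ s ∈ S, f s x = ∑ s ∈ S.filter (fun s => W x ≤ 2 * c * f s x), f s x +
      ∑ s ∈ S.filter (fun s => ¬ W x ≤ 2 * c * f s x), f s x :=
    (Finset.sum_filter_add_sum_filter_not S _ _).symm
  have ha : ∑ s ∈ S.filter (fun s => W x ≤ 2 * c * f s x), f s x ≤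
      (S.filter (fun s => W x ≤ 2 * c * f s x)).card * W x := by
    rw [← smul_eq_mul]
    refine Finset.sum_le_card_nsmul _ _ _ ?_
    intro s hs
    exact h2 s (Finset.mem_filter.mp hs).1 x hx
  have hb : 2 * c * ∑ s ∈ S.filter (fun s => ¬ W x ≤ 2 * c * f s x), f s x ≤
      S.card * W x := by
    rw [Finset.mul_sum]
    refine le_trans (Finset.sum_le_card_nsmul _ _ (W x) ?_) ?_
    · intro s hs
      exact (not_le.mp (Finset.mem_filter.mp hs).2).le
    · rw [smul_eq_mul]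
      exact Nat.mul_le_mul_right _ (Finset.card_filter_le _ _)
  have hc2 : 2 * c * ∑ s ∈ S, f s x = 2 * c * ∑ s ∈ S.filter (fun s => W x ≤ 2 * c * f s x), f s x +
      2 * c * ∑ s ∈ S.filter (fun s => ¬ W x ≤ 2 * c * f s x), f s x := by
    rw [hsplit, Nat.mul_add]
  have ha' : 2 * c * ∑ s ∈ S.filter (fun s => W x ≤ 2 * c * f s x), f s x ≤
      2 * c * ((S.filter (fun s => W x ≤ 2 * c * f s x)).card * W x) := Nat.mul_le_mul_left _ ha
  have hfin : S.card * W x ≤ (2 * c * (S.filter (fun s => W x ≤ 2 * c * f s x)).card) * W x := by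
    have : 2 * (S.card * W x) ≤ 2 * (c * ∑ s ∈ S, f s x) := Nat.mul_le_mul_left _ hx2
    have e1 : 2 * (c * ∑ s ∈ S, f s x) = 2 * c * ∑ s ∈ S, f s x := by ring
    have e2 : 2 * c * ((S.filter (fun s => W x ≤ 2 * c * f s x)).card * W x) =
      (2 * c * (S.filter (fun s => W x ≤ 2 * c * f s x)).card) * W x := by ring
    omega
  exact Nat.le_of_mul_le_mul_right hfin hWx

end Pool.Agent.TH767.KTool
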