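import Pool.Agent.TH476.KHub
import Pool.Agent.TH767.KTool

set_option autoImplicit false

open Classical

namespace Pool.Agent.TH476.KK.KMv2e

open Pool.Agent.TH476 Pool.Agent.TH476.KK Pool.Agent.TH767.KTool

variable {V : Type}

/-- a, h, c are the vertices of a member of the family -/
def T3 (𝓡 : Finset (Fin (2 + 1) → V)) (a h c : V) : Prop :=
  ∃ p ∈ 𝓡, ex 2 p 0 = a ∧ ex 2 p 1 = h ∧ ex 2 p 2 = c

/-- s is an end of a member with middle w -/
def EB (𝓡 : Finset (Fin (2 + 1) → V)) (w s : V) : Prop :=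
  ∃ p ∈ 𝓡, ex 2 p 0 = s ∧ ex 2 p 1 = w

lemma T3.eb {𝓡 : Finset (Fin (2 + 1) → V)} {a h c : V} (H : T3 𝓡 a h c) : EB 𝓡 h a := by
  obtain ⟨p, hp, h0, h1, _⟩ := H
  exact ⟨p, hp, h0, h1⟩

lemma EB.t3 {𝓡 : Finset (Fin (2 + 1) → V)} {a h : V} (H : EB 𝓡 h a) : ∃ c, T3 𝓡 a h c := by
  obtain ⟨p, hp, h0, h1⟩ := H
  exact ⟨_, p, hp, h0, h1, rfl⟩

lemma RSt_mono [Fintype V] {G : SimpleGraph V} {B : ℕ → V → V → Prop} {l q D M' M'' : ℕ}
    {𝓡 : Finset (Fin (l + 1) → V)} (hR : RSt G B l q D M' 𝓡) (h : M'' ≤ M') :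
    RSt G B l q D M'' 𝓡 :=
  ⟨hR.ne, hR.sub, hR.rev, hR.cls, fun p hp => le_trans h (hR.pr p hp)⟩

section
variable [Fintype V] {G : SimpleGraph V} {B : ℕ → V → V → Prop} {q D M' : ℕ}
  {𝓡 : Finset (Fin (2 + 1) → V)} (hR : RSt G B 2 q D M' 𝓡)
include hR

lemma T3_symm {a h c : V} (H : T3 𝓡 a h c) : T3 𝓡 c h a := by
  obtain ⟨p, hp, h0, h1, h2⟩ := H
  exact ⟨fun i => p i.rev, hR.rev p hp, h2, h1, h0⟩

lemma T3_pth {a h c : V} (H : T3 𝓡 a h c) : G.Adj a h ∧ G.Adj h c ∧ a ≠ c := by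
  obtain ⟨p, hp, h0, h1, h2⟩ := H
  have h3 := (Finset.mem_filter.mp (hR.sub p hp)).2.1
  have ha := h3.1 0 (by omega)
  have hb := h3.1 1 (by omega)
  rw [h0, h1] at ha
  rw [h1, h2] at hb
  refine ⟨ha, hb, ?_⟩
  intro he
  have := h3.2.1 0 2 (by omega) (by omega) (by rw [h0, h2]; exact he)
  omega

lemma EB_adj {h a : V} (H : EB 𝓡 h a) : G.Adj h a := by
  obtain ⟨c, hc⟩ := H.t3
  exact (T3_pth hR hc).1.symm

omit [Fintype V] hR in
lemma T3_ext2 {p p' : Fin (2 + 1) → V} (h0 : ex 2 p 0 = ex 2 p' 0) (h1 : ex 2 p 1 = ex 2 p' 1)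
    (h2 : ex 2 p 2 = ex 2 p' 2) : p = p' := by
  funext i
  fin_cases i
  · exact h0
  · exact h1
  · exact h2

lemma T3_cnt {a h : V} (H : EB 𝓡 h a) :
    D ≤ q * (Finset.univ.filter (fun z => T3 𝓡 a h z)).card := by
  obtain ⟨p, hp, h0, h1⟩ := H
  have h3 := hR.cls p hp 0 1 (by omega) (by omega)
  have h4 : D ^ (2 - (1 - 0)) = D := by norm_num
  rw [h4] at h3
  refine le_trans h3 (Nat.mul_le_mul_left _ ?_)
  refine Finset.card_le_card_of_injOn (fun p' => ex 2 p' 2) ?_ ?_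
  · intro p' hp'
    have hp2 := Finset.mem_filter.mp hp'
    have e0 := hp2.2 0 (by omega) (by omega)
    have e1 := hp2.2 1 (by omega) (by omega)
    exact Finset.mem_filter.mpr ⟨Finset.mem_univ _, p', hp2.1, by rw [e0, h0], by rw [e1, h1], rfl⟩
  · intro p1 hp1 p2 hp2 he
    have hp1' := (Finset.mem_filter.mp hp1).2
    have hp2' := (Finset.mem_filter.mp hp2).2
    refine T3_ext2 ?_ ?_ he
    · rw [hp1' 0 (by omega) (by omega), hp2' 0 (by omega) (by omega)]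
    · rw [hp1' 1 (by omega) (by omega), hp2' 1 (by omega) (by omega)]

lemma T3_cnt' {h c : V} (H : EB 𝓡 h c) :
    D ≤ q * (Finset.univ.filter (fun a => T3 𝓡 a h c)).card := by
  refine le_trans (T3_cnt hR H) (Nat.mul_le_mul_left _ (Finset.card_le_card ?_))
  intro z hz
  exact Finset.mem_filter.mpr ⟨Finset.mem_univ _, T3_symm hR (Finset.mem_filter.mp hz).2⟩

lemma T3_mid {a h c : V} (H : T3 𝓡 a h c) :
    M' ≤ (Finset.univ.filter (fun v => T3 𝓡 a v c)).card := by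
  obtain ⟨p, hp, h0, h1, h2⟩ := H
  refine le_trans (hR.pr p hp) ?_
  refine Finset.card_le_card_of_injOn (fun p' => ex 2 p' 1) ?_ ?_
  · intro p' hp'
    have hp2 := Finset.mem_filter.mp hp'
    exact Finset.mem_filter.mpr ⟨Finset.mem_univ _, p', hp2.1, by rw [hp2.2.1, h0], rfl,
      by rw [hp2.2.2, h2]⟩
  · intro p1 hp1 p2 hp2 he
    have hp1' := (Finset.mem_filter.mp hp1).2
    have hp2' := (Finset.mem_filter.mp hp2).2
    refine T3_ext2 ?_ he ?_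
    · rw [hp1'.1, hp2'.1]
    · rw [hp1'.2, hp2'.2]

end

/-- distinct representatives -/
lemma sdr (S Z' : Finset V) (X : V → Finset V)
    (h : ∀ y ∈ S, S.card + Z'.card ≤ (X y).card) :
    ∃ g : V → V, (∀ y ∈ S, g y ∈ X y ∧ g y ∉ Z') ∧ ∀ y ∈ S, ∀ y' ∈ S, g y = g y' → y = y' := by
  induction S using Finset.induction_on with
  | empty => exact ⟨id, by simp, by simp⟩
  | insert y S hy ih =>
    obtain ⟨g, hg1, hg2⟩ := ih (fun y' hy' => by
      have := h y' (Finset.mem_insert_of_mem hy')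
      rw [Finset.card_insert_of_notMem hy] at this
      omega)
    have hlt : (Z' ∪ S.image g).card < (X y).card := by
      have h1 := h y (Finset.mem_insert_self _ _)
      rw [Finset.card_insert_of_notMem hy] at h1
      have h2 := Finset.card_union_le Z' (S.image g)
      have h3 : (S.image g).card ≤ S.card := Finset.card_image_le
      omega
    obtain ⟨z, hz, hz'⟩ := Finset.exists_mem_notMem_of_card_lt_card hlt
    rw [Finset.mem_union, not_or] at hz'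
    have hne : ∀ y' ∈ S, y' ≠ y := fun y' hy' he => hy (he ▸ hy')
    refine ⟨fun v => if v = y then z else g v, ?_, ?_⟩
    · intro y' hy'
      rcases Finset.mem_insert.mp hy' with he | he
      · rw [he]
        simp only [if_pos]
        exact ⟨hz, hz'.1⟩
      · simp only [if_neg (hne y' he)]
        exact hg1 y' he
    · intro a ha b hb hab
      rcases Finset.mem_insert.mp ha with ha' | ha'
      · rcases Finset.mem_insert.mp hb with hb' | hb'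
        · rw [ha', hb']
        · exfalso
          simp only [ha', if_pos, if_neg (hne b hb')] at hab
          exact hz'.2 (Finset.mem_image.mpr ⟨b, hb', hab.symm⟩)
      · rcases Finset.mem_insert.mp hb with hb' | hb'
        · exfalso
          simp only [hb', if_pos, if_neg (hne a ha')] at hab
          exact hz'.2 (Finset.mem_image.mpr ⟨a, ha', hab⟩)
        · simp only [if_neg (hne a ha'), if_neg (hne b hb')] at hab
          exact hg2 a ha' b hb' hab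

/-- greedy selection with a prescribed first edge s - g s -/
lemma greedy2 (m ζ1 : ℕ) (Good : (ℕ → V) → Prop) (S1 Z0 : Finset V) (g : V → V)
    (hSZ : S1 ⊆ Z0) (hg : ∀ s ∈ S1, g s ∉ Z0)
    (hgi : ∀ s ∈ S1, ∀ s' ∈ S1, g s = g s' → s = s')
    (H : ∀ s ∈ S1, ∀ Y : Finset V, Y.card ≤ ζ1 → ∃ P : ℕ → V, P 0 = g s ∧ Good P ∧
      (∀ i, 1 ≤ i → i ≤ m → P i ∉ Y) ∧ ∀ i i', i ≤ m → i' ≤ m → P i = P i' → i = i')
    (n : ℕ) (hn : n ≤ S1.card) (hz : Z0.card + S1.card + n * (m + 1) ≤ ζ1) :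
    ∃ P : Fin n → ℕ → V, (∀ l, P l 0 ∈ S1 ∧ P l 1 = g (P l 0) ∧ Good (fun i => P l (i + 1)) ∧
      ∀ i, 1 ≤ i → i ≤ m + 1 → P l i ∉ Z0) ∧
      ∀ l l' i i', i ≤ m + 1 → i' ≤ m + 1 → P l i = P l' i' → l = l' ∧ i = i' := by
  have hci : (S1.image g).card = S1.card := Finset.card_image_of_injOn (by
    intro a ha b hb hab
    exact hgi a ha b hb hab)
  obtain ⟨P, hP1, hP2⟩ := Pool.Agent.TH767.KTool.greedy m ζ1 Good (S1.image g) (Z0 ∪ S1.image g)
    Finset.subset_union_right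
    (by
      intro s hs Y hY
      obtain ⟨s', hs', rfl⟩ := Finset.mem_image.mp hs
      exact H s' hs' Y hY) n (by rw [hci]; exact hn) (by
        have := Finset.card_union_le Z0 (S1.image g)
        rw [hci] at this
        omega)
  have hex : ∀ l, ∃ s ∈ S1, g s = P l 0 := fun l => Finset.mem_image.mp (hP1 l).1
  choose e he1 he2 using hex
  have hPZ : ∀ (l : Fin n) (i : ℕ), i ≤ m → P l i ∉ Z0 := by
    intro l i hi hc
    rcases Nat.eq_zero_or_pos i with h0 | h0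
    · subst h0
      rw [← he2 l] at hc
      exact hg _ (he1 l) hc
    · exact (hP1 l).2.2 i h0 hi (Finset.mem_union_left _ hc)
  refine ⟨fun l i => if i = 0 then e l else P l (i - 1), ?_, ?_⟩
  · intro l
    refine ⟨by simpa using he1 l, by simpa using (he2 l).symm, ?_, ?_⟩
    · have : (fun i => (if i + 1 = 0 then e l else P l (i + 1 - 1))) = P l := by
        funext i
        simp
      rw [this]
      exact (hP1 l).2.1
    · intro i hi hi'
      simp only [if_neg (show ¬ i = 0 by omega)]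
      exact hPZ l (i - 1) (by omega)
  · intro l l' i i' hi hi' hh
    by_cases h0 : i = 0
    · by_cases h1 : i' = 0
      · simp only [h0, h1, if_pos] at hh
        have h2 : P l 0 = P l' 0 := by rw [← he2 l, ← he2 l', hh]
        exact ⟨(hP2 l l' 0 0 (Nat.zero_le _) (Nat.zero_le _) h2).1, by rw [h0, h1]⟩
      · exfalso
        simp only [h0, if_pos, if_neg h1] at hh
        apply hPZ l' (i' - 1) (by omega)
        rw [← hh]
        exact hSZ (he1 l)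
    · by_cases h1 : i' = 0
      · exfalso
        simp only [h1, if_pos, if_neg h0] at hh
        apply hPZ l (i - 1) (by omega)
        rw [hh]
        exact hSZ (he1 l')
      · simp only [if_neg h0, if_neg h1] at hh
        obtain ⟨h2, h3⟩ := hP2 l l' (i - 1) (i' - 1) (by omega) (by omega) hh
        exact ⟨h2, by omega⟩

end Pool.Agent.TH476.KK.KMv2e

namespace Pool.Agent.TH476.KK.KMv2e

open Pool.Agent.TH476 Pool.Agent.TH476.KK Pool.Agent.TH767.KTool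

variable {V : Type}

/-- the leg move with prescribed first edges -/
lemma leg_of2 (G : SimpleGraph V) (k ζ1 n' : ℕ) (hk : 1 ≤ k) (S S1 Z : Finset V) (ρ : V)
    (g : V → V) (hS1 : S1 ⊆ S) (hn : n' ≤ S1.card)
    (hζ : 2 * S.card + Z.card + 1 + n' * (k + 1) ≤ ζ1) (hρZ : ρ ∉ Z) (hρS : ρ ∉ S)
    (hg : ∀ s ∈ S1, g s ∉ S ∧ g s ∉ Z ∧ g s ≠ ρ ∧ G.Adj s (g s))
    (hgi : ∀ s ∈ S1, ∀ s' ∈ S1, g s = g s' → s = s')
    (H : ∀ s ∈ S1, ∀ Y : Finset V, Y.card ≤ ζ1 → ∃ P : ℕ → V, P 0 = g s ∧ P k = ρ ∧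
      (∀ i, i < k → G.Adj (P i) (P (i + 1))) ∧
      (∀ i, 1 ≤ i → i < k → P i ∉ Y) ∧ ∀ i i', i ≤ k → i' ≤ k → P i = P i' → i = i') :
    ∃ ρ, ρ ∉ Z ∧ ρ ∉ S ∧ ∃ P : Fin n' → ℕ → V,
      (∀ l, P l 0 ∈ S ∧ P l (k + 1) = ρ ∧ (∀ i, i ≤ k → G.Adj (P l i) (P l (i + 1))) ∧
        ∀ i, 1 ≤ i → i ≤ k → P l i ∉ Z ∧ P l i ∉ S ∧ P l i ≠ ρ) ∧
      ∀ l l' i i', i ≤ k → i' ≤ k → P l i = P l' i' → l = l' ∧ i = i' := by
  obtain ⟨m, rfl⟩ : ∃ m, k = m + 1 := ⟨k - 1, by omega⟩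
  have hc : (insert ρ (S ∪ Z)).card ≤ S.card + Z.card + 1 := by
    refine le_trans (Finset.card_insert_le _ _) ?_
    have := Finset.card_union_le S Z
    omega
  have hc1 : S1.card ≤ S.card := Finset.card_le_card hS1
  obtain ⟨P, hP1, hP2⟩ := greedy2 m ζ1 (fun P => P (m + 1) = ρ ∧
      ∀ i, i < m + 1 → G.Adj (P i) (P (i + 1))) S1 (insert ρ (S ∪ Z)) g
    (fun s hs => Finset.mem_insert_of_mem (Finset.mem_union_left _ (hS1 hs)))
    (fun s hs => by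
      obtain ⟨h1, h2, h3, _⟩ := hg s hs
      rw [Finset.mem_insert, Finset.mem_union, not_or, not_or]
      exact ⟨h3, h1, h2⟩) hgi
    (fun s hs Y hY => by
      obtain ⟨P, h0, h1, h2, h3, h4⟩ := H s hs Y hY
      exact ⟨P, h0, ⟨h1, h2⟩, fun i hi hi' => h3 i hi (by omega),
        fun i i' hi hi' => h4 i i' (by omega) (by omega)⟩) n' hn (by nlinarith)
  refine ⟨ρ, hρZ, hρS, P, ?_, hP2⟩
  intro l
  obtain ⟨h0, hf, ⟨h1, h2⟩, h3⟩ := hP1 l
  refine ⟨hS1 h0, h1, ?_, ?_⟩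
  · intro i hi
    rcases Nat.eq_zero_or_pos i with hi0 | hi0
    · subst hi0
      rw [Nat.zero_add, hf]
      exact (hg _ h0).2.2.2
    · have h5 : G.Adj (P l (i - 1 + 1)) (P l (i - 1 + 1 + 1)) := h2 (i - 1) (by omega)
      rw [show i - 1 + 1 = i by omega] at h5
      exact h5
  · intro i hi hi'
    have := h3 i hi hi'
    rw [Finset.mem_insert, Finset.mem_union, not_or, not_or] at this
    exact ⟨this.2.2, this.2.1, this.1⟩

/-- the core move with prescribed first edges -/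
lemma core_of2 (G : SimpleGraph V) (k ζ1 n' : ℕ) (S S1 Z : Finset V) (w' : V)
    (R : V → Prop) (g : V → V) (hS1 : S1 ⊆ S) (hn : n' ≤ S1.card)
    (hζ : 2 * S.card + Z.card + 1 + n' * (k + 2) ≤ ζ1)
    (hg : ∀ s ∈ S1, g s ∉ S ∧ g s ∉ Z ∧ g s ≠ w' ∧ G.Adj s (g s))
    (hgi : ∀ s ∈ S1, ∀ s' ∈ S1, g s = g s' → s = s')
    (H : ∀ s ∈ S1, ∀ Y : Finset V, Y.card ≤ ζ1 → ∃ P : ℕ → V, P 0 = g s ∧ R (P k) ∧
      (∀ i, i < k → G.Adj (P i) (P (i + 1))) ∧
      (∀ i, 1 ≤ i → i ≤ k → P i ∉ Y) ∧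
      ∀ i i', i ≤ k → i' ≤ k → P i = P i' → i = i') :
    ∃ P : Fin n' → ℕ → V,
      (∀ l, P l 0 ∈ S ∧ R (P l (k + 1)) ∧ (∀ i, i ≤ k → G.Adj (P l i) (P l (i + 1))) ∧
        ∀ i, 1 ≤ i → i ≤ k + 1 → P l i ∉ Z ∧ P l i ∉ S ∧ P l i ≠ w') ∧
      ∀ l l' i i', i ≤ k + 1 → i' ≤ k + 1 → P l i = P l' i' → l = l' ∧ i = i' := by
  have hc : (insert w' (S ∪ Z)).card ≤ S.card + Z.card + 1 := by
    refine le_trans (Finset.card_insert_le _ _) ?_
    have := Finset.card_union_le S Z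
    omega
  have hc1 : S1.card ≤ S.card := Finset.card_le_card hS1
  obtain ⟨P, hP1, hP2⟩ := greedy2 k ζ1 (fun P => R (P k) ∧
      ∀ i, i < k → G.Adj (P i) (P (i + 1))) S1 (insert w' (S ∪ Z)) g
    (fun s hs => Finset.mem_insert_of_mem (Finset.mem_union_left _ (hS1 hs)))
    (fun s hs => by
      obtain ⟨h1, h2, h3, _⟩ := hg s hs
      rw [Finset.mem_insert, Finset.mem_union, not_or, not_or]
      exact ⟨h3, h1, h2⟩) hgi
    (fun s hs Y hY => by
      obtain ⟨P, h0, h1, h2, h3, h4⟩ := H s hs Y hY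
      exact ⟨P, h0, ⟨h1, h2⟩, h3, h4⟩) n' hn (by nlinarith)
  refine ⟨P, ?_, hP2⟩
  intro l
  obtain ⟨h0, hf, ⟨h1, h2⟩, h3⟩ := hP1 l
  refine ⟨hS1 h0, h1, ?_, ?_⟩
  · intro i hi
    rcases Nat.eq_zero_or_pos i with hi0 | hi0
    · subst hi0
      rw [Nat.zero_add, hf]
      exact (hg _ h0).2.2.2
    · have h5 : G.Adj (P l (i - 1 + 1)) (P l (i - 1 + 1 + 1)) := h2 (i - 1) (by omega)
      rw [show i - 1 + 1 = i by omega] at h5
      exact h5
  · intro i hi hi'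
    have := h3 i hi hi'
    rw [Finset.mem_insert, Finset.mem_union, not_or, not_or] at this
    exact ⟨this.2.2, this.2.1, this.1⟩

/-- paths of length 2 + 2 t between the ends of members -/
def EXT (G : SimpleGraph V) (𝓡 : Finset (Fin (2 + 1) → V)) (ζ t : ℕ) : Prop :=
  ∀ a h c, T3 𝓡 a h c → ∀ Z : Finset V, Z.card ≤ ζ →
    ∃ P : ℕ → V, P 0 = a ∧ P (2 + 2 * t) = c ∧
      (∀ i, i < 2 + 2 * t → G.Adj (P i) (P (i + 1))) ∧
      (∀ i, 1 ≤ i → i < 2 + 2 * t → P i ∉ Z) ∧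
      ∀ i i', i ≤ 2 + 2 * t → i' ≤ 2 + 2 * t → P i = P i' → i = i'

/-- switching the root -/
def SWT [Fintype V] (𝓡 : Finset (Fin (2 + 1) → V)) (C ζ m0 : ℕ) : Prop :=
  ∀ (h : V) (S Z : Finset V), (∀ s ∈ S, EB 𝓡 h s) → S.card ≤ ζ → Z.card ≤ ζ → S.Nonempty →
    ∃ v, v ∉ Z ∧ v ∉ S ∧ v ≠ h ∧ ∃ S' ⊆ S, S.card ≤ C * S'.card ∧ ∀ s ∈ S',
      m0 ≤ (Finset.univ.filter (fun s' => T3 𝓡 s h s' ∧ EB 𝓡 v s')).card

/-- a path of length 2 + 2 t with one more edge at the end -/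
lemma ext_edge {G : SimpleGraph V} {t : ℕ} {a c d : V} {Y : Finset V} (P : ℕ → V)
    (h0 : P 0 = a) (h1 : P (2 + 2 * t) = c)
    (h2 : ∀ i, i < 2 + 2 * t → G.Adj (P i) (P (i + 1)))
    (h3 : ∀ i, 1 ≤ i → i < 2 + 2 * t → P i ∉ insert d Y)
    (h4 : ∀ i i', i ≤ 2 + 2 * t → i' ≤ 2 + 2 * t → P i = P i' → i = i')
    (hcd : G.Adj c d) (hcY : c ∉ Y) (had : a ≠ d) :
    ∃ P' : ℕ → V, P' 0 = a ∧ P' (2 + 2 * t + 1) = d ∧
      (∀ i, i ≤ 2 + 2 * t → G.Adj (P' i) (P' (i + 1))) ∧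
      (∀ i, 1 ≤ i → i ≤ 2 + 2 * t → P' i ∉ Y) ∧
      ∀ i i', i ≤ 2 + 2 * t + 1 → i' ≤ 2 + 2 * t + 1 → P' i = P' i' → i = i' := by
  have hne : ∀ i, i ≤ 2 + 2 * t → P i ≠ d := by
    intro i hi he
    rcases Nat.eq_zero_or_pos i with hi0 | hi0
    · subst hi0
      exact had (h0.symm.trans he)
    · rcases Nat.lt_or_ge i (2 + 2 * t) with hl | hl
      · exact h3 i hi0 hl (he ▸ Finset.mem_insert_self _ _)
      · have : i = 2 + 2 * t := by omega
        subst this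
        rw [h1] at he
        exact hcd.ne he
  refine ⟨fun i => if i = 2 + 2 * t + 1 then d else P i, ?_, ?_, ?_, ?_, ?_⟩
  · simp only [if_neg (show ¬ (0 = 2 + 2 * t + 1) by omega)]
    exact h0
  · simp
  · intro i hi
    rcases Nat.lt_or_ge i (2 + 2 * t) with hl | hl
    · simp only [if_neg (show ¬ (i = 2 + 2 * t + 1) by omega),
        if_neg (show ¬ (i + 1 = 2 + 2 * t + 1) by omega)]
      exact h2 i hl
    · have : i = 2 + 2 * t := by omega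
      subst this
      simp only [if_neg (show ¬ (2 + 2 * t = 2 + 2 * t + 1) by omega), if_pos]
      rw [h1]
      exact hcd
  · intro i hi hi'
    simp only [if_neg (show ¬ (i = 2 + 2 * t + 1) by omega)]
    rcases Nat.lt_or_ge i (2 + 2 * t) with hl | hl
    · intro hm
      exact h3 i hi hl (Finset.mem_insert_of_mem hm)
    · have : i = 2 + 2 * t := by omega
      subst this
      rw [h1]
      exact hcY
  · intro i i' hi hi' he
    by_cases e1 : i = 2 + 2 * t + 1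
    · by_cases e2 : i' = 2 + 2 * t + 1
      · omega
      · simp only [if_pos e1, if_neg e2] at he
        exact absurd he.symm (hne i' (by omega))
    · by_cases e2 : i' = 2 + 2 * t + 1
      · simp only [if_neg e1, if_pos e2] at he
        exact absurd he (hne i (by omega))
      · simp only [if_neg e1, if_neg e2] at he
        exact h4 i i' (by omega) (by omega) he

end Pool.Agent.TH476.KK.KMv2e

namespace Pool.Agent.TH476.KK.KMv2e

open Pool.Agent.TH476 Pool.Agent.TH476.KK Pool.Agent.TH767.KTool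

variable {V : Type}

/-- possible centres of the second kind -/
def BO [Fintype V] (G : SimpleGraph V) (𝓡 : Finset (Fin (2 + 1) → V)) (m0 : ℕ) (h r y : V) :
    Prop :=
  G.Adj r y ∧ m0 ≤ (Finset.univ.filter (fun z => EB 𝓡 h z ∧ G.Adj y z)).card ∧ y ≠ h

lemma n_le {C n' a b Cs : ℕ} (hC : 0 < C) (hCs : Cs ≤ C) (h1 : C * n' ≤ a)
    (h2 : a ≤ Cs * b) : n' ≤ b := by
  have h3 : C * n' ≤ C * b := le_trans h1 (le_trans h2 (Nat.mul_le_mul_right _ hCs))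
  exact Nat.le_of_mul_le_mul_left h3 hC

section
variable [Fintype V] {G : SimpleGraph V} {B : ℕ → V → V → Prop} {q D K M' ζ ζ1 m0 Cs C t n' : ℕ}
  {𝓡 : Finset (Fin (2 + 1) → V)}

/-- legs in the first kind of states -/
lemma e_leg (hR : RSt G B 2 q D M' 𝓡) (hE : EXT G 𝓡 (ζ1 + 1) t)
    (hSW : SWT 𝓡 Cs (2 * ζ) m0) (hC : 0 < C) (hCs : Cs ≤ C)
    (hζ : 3 * ζ + 1 + ζ * (2 + 2 * t + 2) ≤ ζ1) (hm : ζ1 + 3 ≤ m0) (w : V) (S Z : Finset V)
    (hS : ∀ s ∈ S, EB 𝓡 w s) (hn : C * n' ≤ S.card) (hSζ : S.card ≤ ζ) (hZζ : Z.card ≤ ζ)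
    (hne : S.Nonempty) :
    ∃ ρ, ρ ∉ Z ∧ ρ ∉ S ∧ ∃ P : Fin n' → ℕ → V,
      (∀ l, P l 0 ∈ S ∧ P l (2 + 2 * t + 1) = ρ ∧
        (∀ i, i ≤ 2 + 2 * t → G.Adj (P l i) (P l (i + 1))) ∧
        ∀ i, 1 ≤ i → i ≤ 2 + 2 * t → P l i ∉ Z ∧ P l i ∉ S ∧ P l i ≠ ρ) ∧
      ∀ l l' i i', i ≤ 2 + 2 * t → i' ≤ 2 + 2 * t → P l i = P l' i' → l = l' ∧ i = i' := by
  obtain ⟨v, hvZ, hvS, hvh, S', hS', hc, hm'⟩ := hSW w S Z hS (by omega) (by omega) hne
  have hn1 : n' ≤ S'.card := n_le hC hCs hn hc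
  have hn2 : n' ≤ ζ := by nlinarith
  have hn3 : n' * (2 + 2 * t + 1) ≤ ζ * (2 + 2 * t + 2) := Nat.mul_le_mul hn2 (by omega)
  refine leg_of G (2 + 2 * t) ζ1 n' S S' Z v hS' hn1 (by omega) hvZ hvS ?_
  intro s hs Y hY
  have hlt : Y.card < (Finset.univ.filter (fun s' => T3 𝓡 s w s' ∧ EB 𝓡 v s')).card := by
    have := hm' s hs
    omega
  obtain ⟨s', hs', hs'Y⟩ := Finset.exists_mem_notMem_of_card_lt_card hlt
  obtain ⟨hT, hEB⟩ := (Finset.mem_filter.mp hs').2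
  have hYc : (insert v Y).card ≤ ζ1 + 1 := le_trans (Finset.card_insert_le _ _) (by omega)
  obtain ⟨P, h0, h1, h2, h3, h4⟩ := hE s w s' hT (insert v Y) hYc
  obtain ⟨P', h0', h1', h2', h3', h4'⟩ := ext_edge P h0 h1 h2 h3 h4 (EB_adj hR hEB).symm hs'Y
    (fun he => hvS (he ▸ hS' hs))
  exact ⟨P', h0', h1', h2', h3', fun i i' hi hi' => h4' i i' (by omega) (by omega)⟩

lemma T3_card_le (hG : AR G D K) (hR : RSt G B 2 q D M' 𝓡) (w s : V) :
    (Finset.univ.filter (fun z => T3 𝓡 s w z)).card ≤ K * D := by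
  refine le_trans (Finset.card_le_card ?_) (hG.hi w)
  intro z hz
  rw [mem_nb]
  exact (T3_pth hR (Finset.mem_filter.mp hz).2).2.1

lemma EB_card_le (hG : AR G D K) (hR : RSt G B 2 q D M' 𝓡) (w : V) :
    (Finset.univ.filter (fun z => EB 𝓡 w z)).card ≤ K * D := by
  refine le_trans (Finset.card_le_card ?_) (hG.hi w)
  intro z hz
  rw [mem_nb]
  exact EB_adj hR (Finset.mem_filter.mp hz).2

/-- a common root -/
lemma common (hG : AR G D K) (hR : RSt G B 2 q D M' 𝓡) (_hK : 0 < K) (hq : 0 < q) (hD : 0 < D)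
    (hD2 : 4 * ζ * K * q ^ 2 ≤ D) (w : V) (S Z : Finset V)
    (hS : ∀ s ∈ S, EB 𝓡 w s) (hSζ : S.card ≤ ζ) (hZζ : Z.card ≤ ζ) (hne : S.Nonempty) :
    ∃ r, r ∉ Z ∧ r ∉ S ∧ EB 𝓡 w r ∧ S.card ≤ 4 * q ^ 2 * K ^ 2 * (S.filter (fun s =>
      K * D ≤ 4 * q ^ 2 * K ^ 2 *
        (Finset.univ.filter (fun z => T3 𝓡 r w z ∧ T3 𝓡 s w z)).card)).card := by
  set F : V → V → ℕ := fun s r =>
    (Finset.univ.filter (fun z => T3 𝓡 r w z ∧ T3 𝓡 s w z)).card with hF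
  set T : Finset V := Finset.univ.filter (fun r => EB 𝓡 w r ∧ r ∉ Z ∧ r ∉ S) with hT
  have hFle : ∀ s r, F s r ≤ K * D := by
    intro s r
    refine le_trans (Finset.card_le_card ?_) (T3_card_le hG hR w s)
    intro z hz
    exact Finset.mem_filter.mpr ⟨Finset.mem_univ _, (Finset.mem_filter.mp hz).2.2⟩
  have hq2 : 0 < 2 * q ^ 2 := by positivity
  have H1 : ∀ s ∈ S, D * D ≤ ∑ r ∈ T, 2 * q ^ 2 * F s r := by
    intro s hs
    rw [← Finset.mul_sum]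
    set Ra : Finset V := Finset.univ.filter (fun r => EB 𝓡 w r) with hRa
    set Gs : Finset V := Finset.univ.filter (fun z => T3 𝓡 s w z) with hGs
    have h1 : ∑ r ∈ Ra, F s r = ∑ z ∈ Gs, (Ra.filter (fun r => T3 𝓡 r w z)).card := by
      have h2 : ∀ r ∈ Ra, F s r = (Gs.filter (fun z => T3 𝓡 r w z)).card := by
        intro r _
        rw [hF, hGs, Finset.filter_filter]
        refine congrArg Finset.card (Finset.filter_congr (fun z _ => ?_))
        exact ⟨fun h => ⟨h.2, h.1⟩, fun h => ⟨h.2, h.1⟩⟩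
      rw [Finset.sum_congr rfl h2]
      exact Finset.sum_card_bipartiteAbove_eq_sum_card_bipartiteBelow
        (fun r z => T3 𝓡 r w z) (s := Ra) (t := Gs)
    have h3 : ∀ z ∈ Gs, D ≤ q * (Ra.filter (fun r => T3 𝓡 r w z)).card := by
      intro z hz
      have hz' := (Finset.mem_filter.mp hz).2
      refine le_trans (T3_cnt' hR (T3_symm hR hz').eb) (Nat.mul_le_mul_left _
        (Finset.card_le_card ?_))
      intro a ha
      have ha' := (Finset.mem_filter.mp ha).2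
      exact Finset.mem_filter.mpr ⟨Finset.mem_filter.mpr ⟨Finset.mem_univ _, ha'.eb⟩, ha'⟩
    have h4 : D ≤ q * Gs.card := T3_cnt hR (hS s hs)
    have h5 : Gs.card * D ≤ q * ∑ r ∈ Ra, F s r := by
      rw [h1, Finset.mul_sum, ← smul_eq_mul]
      exact Finset.card_nsmul_le_sum _ _ _ h3
    have h6 : D * D ≤ q ^ 2 * ∑ r ∈ Ra, F s r := by
      calc D * D ≤ (q * Gs.card) * D := Nat.mul_le_mul_right _ h4
        _ = q * (Gs.card * D) := by ring
        _ ≤ q * (q * ∑ r ∈ Ra, F s r) := Nat.mul_le_mul_left _ h5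
        _ = q ^ 2 * ∑ r ∈ Ra, F s r := by ring
    have h7 : ∑ r ∈ Ra, F s r ≤ ∑ r ∈ T, F s r + (2 * ζ) * (K * D) := by
      have h8 : Ra ⊆ T ∪ (Z ∪ S) := by
        intro r hr
        by_cases h9 : r ∈ Z ∪ S
        · exact Finset.mem_union_right _ h9
        · rw [Finset.mem_union, not_or] at h9
          exact Finset.mem_union_left _ (Finset.mem_filter.mpr ⟨Finset.mem_univ _,
            (Finset.mem_filter.mp hr).2, h9.1, h9.2⟩)
      have h9 : ∑ r ∈ Z ∪ S, F s r ≤ (2 * ζ) * (K * D) := by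
        refine le_trans (Finset.sum_le_card_nsmul _ _ (K * D) (fun r _ => hFle s r)) ?_
        rw [smul_eq_mul]
        refine Nat.mul_le_mul_right _ ?_
        have := Finset.card_union_le Z S
        omega
      calc ∑ r ∈ Ra, F s r ≤ ∑ r ∈ T ∪ (Z ∪ S), F s r := Finset.sum_le_sum_of_subset h8
        _ ≤ ∑ r ∈ T, F s r + ∑ r ∈ Z ∪ S, F s r := by
            rw [← Finset.sum_union_inter]
            exact Nat.le_add_right _ _
        _ ≤ _ := Nat.add_le_add_left h9 _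
    have h10 : 4 * ζ * K * q ^ 2 * D ≤ D * D := Nat.mul_le_mul_right _ hD2
    have h11 : q ^ 2 * ∑ r ∈ Ra, F s r ≤ q ^ 2 * (∑ r ∈ T, F s r + (2 * ζ) * (K * D)) :=
      Nat.mul_le_mul_left _ h7
    have e3 : q ^ 2 * (∑ r ∈ T, F s r + (2 * ζ) * (K * D)) =
      q ^ 2 * ∑ r ∈ T, F s r + 2 * ζ * K * q ^ 2 * D := by ring
    have e4 : 4 * ζ * K * q ^ 2 * D = 2 * (2 * ζ * K * q ^ 2 * D) := by ring
    have e5 : 2 * q ^ 2 * ∑ r ∈ T, F s r = 2 * (q ^ 2 * ∑ r ∈ T, F s r) := by ring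
    omega
  have H2 : ∀ s ∈ S, ∀ r ∈ T, 2 * q ^ 2 * F s r ≤ 2 * q ^ 2 * (K * D) := by
    intro s _ r _
    exact Nat.mul_le_mul_left _ (hFle s r)
  have H3 : ∑ r ∈ T, 2 * q ^ 2 * (K * D) ≤ 2 * q ^ 2 * K ^ 2 * (D * D) := by
    rw [Finset.sum_const, smul_eq_mul]
    have h1 : T.card ≤ K * D := by
      refine le_trans (Finset.card_le_card ?_) (EB_card_le hG hR w)
      intro r hr
      exact Finset.mem_filter.mpr ⟨Finset.mem_univ _, (Finset.mem_filter.mp hr).2.1⟩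
    calc T.card * (2 * q ^ 2 * (K * D)) ≤ (K * D) * (2 * q ^ 2 * (K * D)) :=
          Nat.mul_le_mul_right _ h1
      _ = 2 * q ^ 2 * K ^ 2 * (D * D) := by ring
  obtain ⟨r, hr, _, hr2⟩ := Pool.Agent.TH767.KTool.avg S T (fun s r => 2 * q ^ 2 * F s r) (fun _ => 2 * q ^ 2 * (K * D))
      (D * D) (2 * q ^ 2 * K ^ 2) hne (Nat.mul_pos hD hD) H1 H2 H3
  have hr' := (Finset.mem_filter.mp hr).2
  refine ⟨r, hr'.2.1, hr'.2.2, hr'.1, ?_⟩
  have e1 : 2 * (2 * q ^ 2 * K ^ 2) = 4 * q ^ 2 * K ^ 2 := by ring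
  rw [e1] at hr2
  refine le_trans hr2 (Nat.mul_le_mul_left _ (Finset.card_le_card ?_))
  intro s hs
  obtain ⟨hs1, hs2⟩ := Finset.mem_filter.mp hs
  refine Finset.mem_filter.mpr ⟨hs1, ?_⟩
  have e2 : 4 * q ^ 2 * K ^ 2 * (2 * q ^ 2 * F s r) =
    2 * q ^ 2 * (4 * q ^ 2 * K ^ 2 * F s r) := by ring
  rw [e2] at hs2
  exact Nat.le_of_mul_le_mul_left hs2 hq2

/-- core moves in the first kind of states -/
lemma e_core (hG : AR G D K) (hR : RSt G B 2 q D M' 𝓡) (hE : EXT G 𝓡 (ζ1 + 1) t)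
    (hK : 0 < K) (hq : 0 < q) (hD : 0 < D) (hD2 : 4 * ζ * K * q ^ 2 ≤ D) (hC : 0 < C)
    (hCs : 4 * q ^ 2 * K ^ 2 ≤ C)
    (hζ : 3 * ζ + 1 + ζ * (2 + 2 * t + 2) ≤ ζ1) (hm : ζ1 + 3 ≤ m0)
    (hM : ζ1 + 3 + 4 * q ^ 2 * K ^ 2 * m0 ≤ M') (w : V) (S Z : Finset V)
    (hS : ∀ s ∈ S, EB 𝓡 w s) (hn : C * n' ≤ S.card) (hSζ : S.card ≤ ζ) (hZζ : Z.card ≤ ζ)
    (hne : S.Nonempty) :
    ∃ r, r ∉ Z ∧ r ∉ S ∧ ∃ P : Fin n' → ℕ → V,
      (∀ l, P l 0 ∈ S ∧ BO G 𝓡 m0 w r (P l (2 + 2 * t + 1)) ∧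
        (∀ i, i ≤ 2 + 2 * t → G.Adj (P l i) (P l (i + 1))) ∧
        ∀ i, 1 ≤ i → i ≤ 2 + 2 * t + 1 → P l i ∉ Z ∧ P l i ∉ S ∧ P l i ≠ r) ∧
      ∀ l l' i i', i ≤ 2 + 2 * t + 1 → i' ≤ 2 + 2 * t + 1 → P l i = P l' i' →
        l = l' ∧ i = i' := by
  obtain ⟨r, hrZ, hrS, hrE, hr⟩ := common hG hR hK hq hD hD2 w S Z hS hSζ hZζ hne
  have hn1 := n_le hC hCs hn hr
  have hn2 : n' ≤ ζ := by nlinarith
  have hn3 : n' * (2 + 2 * t + 2) ≤ ζ * (2 + 2 * t + 2) := Nat.mul_le_mul hn2 le_rfl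
  refine ⟨r, hrZ, hrS, core_of G (2 + 2 * t) ζ1 n' S _ Z r (BO G 𝓡 m0 w r)
    (Finset.filter_subset _ _) hn1 (by omega) ?_⟩
  intro s hs Y hY
  obtain ⟨hsS, hF⟩ := Finset.mem_filter.mp hs
  set Bs : Finset V := Finset.univ.filter (fun z => T3 𝓡 r w z ∧ T3 𝓡 s w z) with hBs
  have hBpos : 0 < Bs.card := by
    rcases Nat.eq_zero_or_pos Bs.card with h0 | h0
    · rw [h0, Nat.mul_zero] at hF
      have := Nat.mul_pos hK hD
      omega
    · exact h0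
  have hgood : ∃ y, y ∉ insert w (insert s Y) ∧ m0 ≤ (Bs.filter (fun z => T3 𝓡 r y z)).card := by
    by_contra hcon
    push Not at hcon
    have h1 : M' * Bs.card ≤ ∑ z ∈ Bs, (Finset.univ.filter (fun y => T3 𝓡 r y z)).card := by
      rw [Nat.mul_comm, ← smul_eq_mul]
      refine Finset.card_nsmul_le_sum _ _ _ ?_
      intro z hz
      exact T3_mid hR (Finset.mem_filter.mp hz).2.1
    have h2 : ∑ z ∈ Bs, (Finset.univ.filter (fun y => T3 𝓡 r y z)).card =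
        ∑ y : V, (Bs.filter (fun z => T3 𝓡 r y z)).card :=
      Finset.sum_card_bipartiteAbove_eq_sum_card_bipartiteBelow
        (fun z y => T3 𝓡 r y z) (s := Bs) (t := Finset.univ)
    have h3 : ∀ y : V, (Bs.filter (fun z => T3 𝓡 r y z)).card ≤
        (if y ∈ insert w (insert s Y) then Bs.card else 0) + (if y ∈ nb G r then m0 else 0) := by
      intro y
      by_cases hy : y ∈ insert w (insert s Y)
      · rw [if_pos hy]
        exact le_trans (Finset.card_filter_le _ _) (Nat.le_add_right _ _)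
      · by_cases hy2 : y ∈ nb G r
        · rw [if_neg hy, if_pos hy2, Nat.zero_add]
          exact (hcon y hy).le
        · rw [if_neg hy, if_neg hy2, Nat.add_zero, Nat.le_zero, Finset.card_eq_zero,
            Finset.filter_eq_empty_iff]
          intro z _ hT
          apply hy2
          rw [mem_nb]
          exact (T3_pth hR hT).1
    have h4 : ∑ y : V, (Bs.filter (fun z => T3 𝓡 r y z)).card ≤
        (insert w (insert s Y)).card * Bs.card + (nb G r).card * m0 := by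
      refine le_trans (Finset.sum_le_sum (fun y _ => h3 y)) ?_
      rw [Finset.sum_add_distrib, Finset.sum_ite_mem, Finset.sum_ite_mem, Finset.univ_inter,
        Finset.univ_inter, Finset.sum_const, Finset.sum_const, smul_eq_mul, smul_eq_mul]
    have h5 : (insert w (insert s Y)).card ≤ ζ1 + 2 := by
      have a1 := Finset.card_insert_le w (insert s Y)
      have a2 := Finset.card_insert_le s Y
      omega
    have h6 : (nb G r).card * m0 ≤ 4 * q ^ 2 * K ^ 2 * m0 * Bs.card := by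
      calc (nb G r).card * m0 ≤ (K * D) * m0 := Nat.mul_le_mul_right _ (hG.hi r)
        _ ≤ (4 * q ^ 2 * K ^ 2 * Bs.card) * m0 := Nat.mul_le_mul_right _ hF
        _ = _ := by ring
    have h7 : (insert w (insert s Y)).card * Bs.card ≤ (ζ1 + 2) * Bs.card :=
      Nat.mul_le_mul_right _ h5
    have h8 : (ζ1 + 3 + 4 * q ^ 2 * K ^ 2 * m0) * Bs.card ≤ M' * Bs.card :=
      Nat.mul_le_mul_right _ hM
    have e1 : (ζ1 + 3 + 4 * q ^ 2 * K ^ 2 * m0) * Bs.card =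
      (ζ1 + 2) * Bs.card + Bs.card + 4 * q ^ 2 * K ^ 2 * m0 * Bs.card := by ring
    rw [h2] at h1
    omega
  obtain ⟨y, hy, hym⟩ := hgood
  rw [Finset.mem_insert, Finset.mem_insert, not_or, not_or] at hy
  obtain ⟨hyw, hys, hyY⟩ := hy
  have hlt : Y.card < (Bs.filter (fun z => T3 𝓡 r y z)).card := by omega
  obtain ⟨z, hz, hzY⟩ := Finset.exists_mem_notMem_of_card_lt_card hlt
  obtain ⟨hzB, hzT⟩ := Finset.mem_filter.mp hz
  have hzs : T3 𝓡 s w z := (Finset.mem_filter.mp hzB).2.2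
  have hYc : (insert y Y).card ≤ ζ1 + 1 := le_trans (Finset.card_insert_le _ _) (by omega)
  obtain ⟨P, h0, h1, h2, h3, h4⟩ := hE s w z hzs (insert y Y) hYc
  obtain ⟨P', h0', h1', h2', h3', h4'⟩ := ext_edge P h0 h1 h2 h3 h4 (T3_pth hR hzT).2.1.symm hzY
    (fun he => hys he.symm)
  refine ⟨P', h0', ?_, h2', ?_, h4'⟩
  · rw [h1']
    refine ⟨(T3_pth hR hzT).1, le_trans hym (Finset.card_le_card ?_), hyw⟩
    intro z' hz'
    obtain ⟨hz1, hz2⟩ := Finset.mem_filter.mp hz'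
    exact Finset.mem_filter.mpr ⟨Finset.mem_univ _,
      (T3_symm hR (Finset.mem_filter.mp hz1).2.2).eb, (T3_pth hR hz2).2.1⟩
  · intro i hi hi'
    rcases Nat.lt_or_ge i (2 + 2 * t + 1) with hl | hl
    · exact h3' i hi (by omega)
    · have : i = 2 + 2 * t + 1 := by omega
      subst this
      rw [h1']
      exact hyY

end

end Pool.Agent.TH476.KK.KMv2e

namespace Pool.Agent.TH476.KK.KMv2e

open Pool.Agent.TH476 Pool.Agent.TH476.KK Pool.Agent.TH767.KTool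

variable {V : Type}

section
variable [Fintype V] {G : SimpleGraph V} {B : ℕ → V → V → Prop} {q D K M' ζ ζ1 m0 Cs C t n' : ℕ}
  {𝓡 : Finset (Fin (2 + 1) → V)}

/-- first steps in the second kind of states -/
lemma o_step (h r : V) (S Z : Finset V) (hm : 3 * ζ ≤ m0) (hS : ∀ s ∈ S, BO G 𝓡 m0 h r s)
    (hSζ : S.card ≤ ζ) (hZζ : Z.card ≤ ζ) :
    ∃ g : V → V, (∀ y ∈ S, EB 𝓡 h (g y) ∧ G.Adj y (g y) ∧ g y ∉ Z ∧ g y ∉ S) ∧
      ∀ y ∈ S, ∀ y' ∈ S, g y = g y' → y = y' := by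
  obtain ⟨g, hg1, hg2⟩ := sdr S (Z ∪ S)
    (fun y => Finset.univ.filter (fun z => EB 𝓡 h z ∧ G.Adj y z)) (by
      intro y hy
      have h1 := (hS y hy).2.1
      have h2 := Finset.card_union_le Z S
      show S.card + (Z ∪ S).card ≤
        (Finset.univ.filter (fun z => EB 𝓡 h z ∧ G.Adj y z)).card
      omega)
  refine ⟨g, ?_, hg2⟩
  intro y hy
  obtain ⟨h1, h2⟩ := hg1 y hy
  have h3 := (Finset.mem_filter.mp h1).2
  rw [Finset.mem_union, not_or] at h2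
  exact ⟨h3.1, h3.2, h2.1, h2.2⟩

/-- legs in the second kind of states -/
lemma o_leg (hG : AR G D K) (hR : RSt G B 2 q D M' 𝓡) (hE : EXT G 𝓡 (ζ1 + 1) t)
    (hq : 0 < q) (hD : 0 < D) (hD2 : 6 * ζ * q ≤ D) (hC : 0 < C) (hCs : 4 * q * K ≤ C)
    (hζ : 3 * ζ + 1 + ζ * (2 + 2 * t + 2) ≤ ζ1) (hm : ζ1 + 3 ≤ m0) (h r : V) (S Z : Finset V)
    (hS : ∀ s ∈ S, BO G 𝓡 m0 h r s) (hn : C * n' ≤ S.card) (hSζ : S.card ≤ ζ)
    (hZζ : Z.card ≤ ζ) (hne : S.Nonempty) :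
    ∃ ρ, ρ ∉ Z ∧ ρ ∉ S ∧ ∃ P : Fin n' → ℕ → V,
      (∀ l, P l 0 ∈ S ∧ P l (2 + 2 * t + 1) = ρ ∧
        (∀ i, i ≤ 2 + 2 * t → G.Adj (P l i) (P l (i + 1))) ∧
        ∀ i, 1 ≤ i → i ≤ 2 + 2 * t → P l i ∉ Z ∧ P l i ∉ S ∧ P l i ≠ ρ) ∧
      ∀ l l' i i', i ≤ 2 + 2 * t → i' ≤ 2 + 2 * t → P l i = P l' i' → l = l' ∧ i = i' := by
  obtain ⟨g, hg, hgi⟩ := o_step h r S Z (by omega) hS hSζ hZζ
  set T : Finset V := Finset.univ.filter (fun x => G.Adj h x ∧ x ∉ Z ∧ x ∉ S ∧ x ∉ S.image g)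
    with hT
  have hTc : T.card ≤ K * D := by
    refine le_trans (Finset.card_le_card ?_) (hG.hi h)
    intro x hx
    rw [mem_nb]
    exact (Finset.mem_filter.mp hx).2.1
  have H1 : ∀ y ∈ S, D ≤ ∑ x ∈ T, 2 * q * (if T3 𝓡 (g y) h x then 1 else 0) := by
    intro y hy
    rw [← Finset.mul_sum, ← Finset.card_filter]
    have h1 : D ≤ q * (Finset.univ.filter (fun x => T3 𝓡 (g y) h x)).card :=
      T3_cnt hR (hg y hy).1
    have h2 : (Finset.univ.filter (fun x => T3 𝓡 (g y) h x)).card ≤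
        (T.filter (fun x => T3 𝓡 (g y) h x)).card + 3 * ζ := by
      have h3 : Finset.univ.filter (fun x => T3 𝓡 (g y) h x) ⊆
          T.filter (fun x => T3 𝓡 (g y) h x) ∪ (Z ∪ S ∪ S.image g) := by
        intro x hx
        by_cases h9 : x ∈ Z ∪ S ∪ S.image g
        · exact Finset.mem_union_right _ h9
        · rw [Finset.mem_union, Finset.mem_union, not_or, not_or] at h9
          have h10 := (Finset.mem_filter.mp hx).2
          exact Finset.mem_union_left _ (Finset.mem_filter.mpr ⟨Finset.mem_filter.mpr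
            ⟨Finset.mem_univ _, (T3_pth hR h10).2.1, h9.1.1, h9.1.2, h9.2⟩, h10⟩)
      refine le_trans (Finset.card_le_card h3) (le_trans (Finset.card_union_le _ _) ?_)
      have a1 := Finset.card_union_le (Z ∪ S) (S.image g)
      have a2 := Finset.card_union_le Z S
      have a3 : (S.image g).card ≤ S.card := Finset.card_image_le
      omega
    have h4 : q * (Finset.univ.filter (fun x => T3 𝓡 (g y) h x)).card ≤
        q * ((T.filter (fun x => T3 𝓡 (g y) h x)).card + 3 * ζ) := Nat.mul_le_mul_left _ h2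
    have e1 : q * ((T.filter (fun x => T3 𝓡 (g y) h x)).card + 3 * ζ) =
        q * (T.filter (fun x => T3 𝓡 (g y) h x)).card + 3 * ζ * q := by ring
    have e2 : 2 * q * (T.filter (fun x => T3 𝓡 (g y) h x)).card =
        2 * (q * (T.filter (fun x => T3 𝓡 (g y) h x)).card) := by ring
    have e3 : 6 * ζ * q = 2 * (3 * ζ * q) := by ring
    omega
  have H2 : ∀ y ∈ S, ∀ x ∈ T, 2 * q * (if T3 𝓡 (g y) h x then 1 else 0) ≤ 2 * q := by
    intro y _ x _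
    split_ifs
    · omega
    · omega
  have H3 : ∑ x ∈ T, 2 * q ≤ 2 * q * K * D := by
    rw [Finset.sum_const, smul_eq_mul]
    calc T.card * (2 * q) ≤ (K * D) * (2 * q) := Nat.mul_le_mul_right _ hTc
      _ = _ := by ring
  obtain ⟨x, hx, _, hx2⟩ := Pool.Agent.TH767.KTool.avg S T (fun y x => 2 * q * (if T3 𝓡 (g y) h x then 1 else 0))
    (fun _ => 2 * q) D (2 * q * K) hne hD H1 H2 H3
  obtain ⟨hxh, hxZ, hxS, hxg⟩ := (Finset.mem_filter.mp hx).2
  have e1 : 2 * (2 * q * K) = 4 * q * K := by ring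
  rw [e1] at hx2
  have hn1 := n_le hC hCs hn hx2
  have hn2 : n' ≤ ζ := by nlinarith
  have hn3 : n' * (2 + 2 * t + 1) ≤ ζ * (2 + 2 * t + 2) := Nat.mul_le_mul hn2 (by omega)
  refine leg_of2 G (2 + 2 * t) ζ1 n' (by omega) S _ Z x g (Finset.filter_subset _ _) hn1
    (by omega) hxZ hxS ?_ ?_ ?_
  · intro y hy
    have hyS := (Finset.mem_filter.mp hy).1
    obtain ⟨_, h2, h3, h4⟩ := hg y hyS
    exact ⟨h4, h3, fun he => hxg (Finset.mem_image.mpr ⟨y, hyS, he⟩), h2⟩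
  · intro y hy y' hy'
    exact hgi y (Finset.mem_filter.mp hy).1 y' (Finset.mem_filter.mp hy').1
  · intro y hy Y hY
    have hT3 : T3 𝓡 (g y) h x := by
      by_contra hcon
      have h1 := (Finset.mem_filter.mp hy).2
      simp only [if_neg hcon, Nat.mul_zero] at h1
      omega
    exact hE (g y) h x hT3 Y (by omega)

/-- core moves in the second kind of states -/
lemma o_core (hE : EXT G 𝓡 (ζ1 + 1) t)
    (hSW : SWT 𝓡 Cs (2 * ζ) m0) (hC : 0 < C) (hCs : Cs ≤ C)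
    (hζ : 3 * ζ + 1 + ζ * (2 + 2 * t + 2) ≤ ζ1) (hm : ζ1 + 3 ≤ m0) (h r : V) (S Z : Finset V)
    (hS : ∀ s ∈ S, BO G 𝓡 m0 h r s) (hn : C * n' ≤ S.card) (hSζ : S.card ≤ ζ)
    (hZζ : Z.card ≤ ζ) (hne : S.Nonempty) :
    ∃ v, v ∉ Z ∧ v ∉ S ∧ ∃ P : Fin n' → ℕ → V,
      (∀ l, P l 0 ∈ S ∧ EB 𝓡 v (P l (2 + 2 * t + 1)) ∧
        (∀ i, i ≤ 2 + 2 * t → G.Adj (P l i) (P l (i + 1))) ∧
        ∀ i, 1 ≤ i → i ≤ 2 + 2 * t + 1 → P l i ∉ Z ∧ P l i ∉ S ∧ P l i ≠ v) ∧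
      ∀ l l' i i', i ≤ 2 + 2 * t + 1 → i' ≤ 2 + 2 * t + 1 → P l i = P l' i' →
        l = l' ∧ i = i' := by
  obtain ⟨g, hg, hgi⟩ := o_step h r S Z (by omega) hS hSζ hZζ
  have hci : (S.image g).card = S.card := Finset.card_image_of_injOn (by
    intro a ha b hb hab
    exact hgi a ha b hb hab)
  have hZS : (Z ∪ S).card ≤ 2 * ζ := by
    have := Finset.card_union_le Z S
    omega
  obtain ⟨v, hvZ, hvg, hvh, S', hS', hc, hm'⟩ := hSW h (S.image g) (Z ∪ S)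
    (by
      intro z hz
      obtain ⟨y, hy, rfl⟩ := Finset.mem_image.mp hz
      exact (hg y hy).1) (by omega) hZS (hne.image g)
  rw [Finset.mem_union, not_or] at hvZ
  rw [hci] at hc
  set S1 : Finset V := S.filter (fun y => g y ∈ S') with hS1
  have hS1c : S'.card ≤ S1.card := by
    have h1 : S' ⊆ S1.image g := by
      intro z hz
      obtain ⟨y, hy, hyz⟩ := Finset.mem_image.mp (hS' hz)
      exact Finset.mem_image.mpr ⟨y, Finset.mem_filter.mpr ⟨hy, by rw [hyz]; exact hz⟩, hyz⟩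
    exact le_trans (Finset.card_le_card h1) Finset.card_image_le
  have hn1 : n' ≤ S1.card := le_trans (n_le hC hCs hn hc) hS1c
  have hn2 : n' ≤ ζ := by nlinarith
  have hn3 : n' * (2 + 2 * t + 2) ≤ ζ * (2 + 2 * t + 2) := Nat.mul_le_mul hn2 le_rfl
  refine ⟨v, hvZ.1, hvZ.2, core_of2 G (2 + 2 * t) ζ1 n' S S1 Z v (EB 𝓡 v) g
    (Finset.filter_subset _ _) hn1 (by omega) ?_ ?_ ?_⟩
  · intro y hy
    have hyS := (Finset.mem_filter.mp hy).1
    obtain ⟨_, h2, h3, h4⟩ := hg y hyS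
    exact ⟨h4, h3, fun he => hvg (Finset.mem_image.mpr ⟨y, hyS, he⟩), h2⟩
  · intro y hy y' hy'
    exact hgi y (Finset.mem_filter.mp hy).1 y' (Finset.mem_filter.mp hy').1
  · intro y hy Y hY
    have hlt : Y.card < (Finset.univ.filter (fun s' => T3 𝓡 (g y) h s' ∧ EB 𝓡 v s')).card := by
      have := hm' (g y) (Finset.mem_filter.mp hy).2
      omega
    obtain ⟨s', hs', hs'Y⟩ := Finset.exists_mem_notMem_of_card_lt_card hlt
    obtain ⟨hT, hEB⟩ := (Finset.mem_filter.mp hs').2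
    obtain ⟨P, h0, h1, h2, h3, h4⟩ := hE (g y) h s' hT Y (by omega)
    refine ⟨P, h0, by rw [h1]; exact hEB, h2, ?_, h4⟩
    intro i hi hi'
    rcases Nat.lt_or_ge i (2 + 2 * t) with hl | hl
    · exact h3 i hi hl
    · have : i = 2 + 2 * t := by omega
      subst this
      rw [h1]
      exact hs'Y

/-- the relation of centres and roots in the states -/
def BdD (G : SimpleGraph V) (𝓡 : Finset (Fin (2 + 1) → V)) (m0 : ℕ) : Option V → V → V → Prop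
  | none, w, s => EB 𝓡 w s
  | some h, r, y => BO G 𝓡 m0 h r y

/-- a new vertex -/
lemma fresh (hG : AR G D K) (hD : 2 * ζ < D) (v0 : V) (S Z : Finset V) (hSζ : S.card ≤ ζ)
    (hZζ : Z.card ≤ ζ) : ∃ v, v ∉ Z ∧ v ∉ S := by
  have h1 : (Z ∪ S).card < (nb G v0).card := by
    have := Finset.card_union_le Z S
    have := hG.lo v0
    omega
  obtain ⟨v, _, hv⟩ := Finset.exists_mem_notMem_of_card_lt_card h1
  rw [Finset.mem_union, not_or] at hv
  exact ⟨v, hv⟩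

end

end Pool.Agent.TH476.KK.KMv2e

namespace Pool.Agent.TH476.KK

open Pool.Agent.TH476 Pool.Agent.TH767.KTool KMv2e

theorem mv2e_holds : S_RST → S_EXT → S_SW → ∀ k, 2 ≤ k → k % 2 = 0 → S_MV k 2 := by
  intro hRST hEXT hSW k hk hk2 K Q hK hQ
  obtain ⟨t, rfl⟩ : ∃ t, k = 2 + 2 * t := ⟨(k - 2) / 2, by omega⟩
  obtain ⟨q, hq, hRST'⟩ := hRST 2 K Q le_rfl hK hQ
  obtain ⟨Cs, hCs0, hSW'⟩ := hSW K q hK hq
  refine ⟨Cs + 4 * q ^ 2 * K ^ 2 + 4 * q * K, by omega, ?_⟩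
  intro F0 ζ
  obtain ⟨ζ1, hζ1⟩ : ∃ ζ1, 3 * ζ + 1 + ζ * (2 + 2 * t + 2) ≤ ζ1 := ⟨_, le_rfl⟩
  obtain ⟨m0, hm0⟩ : ∃ m0, ζ1 + 3 ≤ m0 := ⟨_, le_rfl⟩
  obtain ⟨M1, D1, hEXT'⟩ := hEXT 2 q F0 (ζ1 + 1) t le_rfl hq
  obtain ⟨M2, D2, hSW''⟩ := hSW' (2 * ζ) m0
  obtain ⟨M, hM⟩ := hRST' (M1 + M2 + (ζ1 + 3 + 4 * q ^ 2 * K ^ 2 * m0))
  refine ⟨M, D1 + D2 + 4 * ζ * K * q ^ 2 + 6 * ζ * q + 2 * ζ + 1 + q * ζ, ?_⟩
  intro V _ _ G D B hG hD hB hRich hBN hdense
  obtain ⟨𝓡, hR⟩ := hM V G D B hG (by omega) hB hRich hdense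
  have hE : EXT G 𝓡 (ζ1 + 1) t := by
    intro a h c hT Z hZ
    obtain ⟨p, hp, h0, h1, h2⟩ := hT
    obtain ⟨P, e0, e1, e2, e3, e4⟩ := hEXT' V G D B 𝓡 hB hBN (by omega)
      (RSt_mono hR (by omega)) p hp Z hZ
    exact ⟨P, by rw [e0, h0], by rw [e1, h2], e2, e3, e4⟩
  have hS : SWT 𝓡 Cs (2 * ζ) m0 := by
    intro h S Z h1 h2 h3 h4
    obtain ⟨v, hv1, hv2, hv3, S', hS', hc, hm⟩ := hSW'' V G D B 𝓡 hG (by omega)
      (RSt_mono hR (by omega)) h S Z h1 h2 h3 h4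
    refine ⟨v, hv1, hv2, hv3, S', hS', hc, ?_⟩
    intro s hs
    refine le_trans (hm s hs) (Finset.card_le_card ?_)
    intro x hx
    exact Finset.mem_filter.mpr ⟨Finset.mem_univ _, (Finset.mem_filter.mp hx).2⟩
  have hD0 : 0 < D := by omega
  refine ⟨Option V, BdD G 𝓡 m0, fun _ _ => True, ⟨?_, ?_, ?_⟩, ?_⟩
  · intro a w s hs
    cases a with
    | none => exact EB_adj hR hs
    | some h => exact hs.1
  · intro n a _ w S Z n' hSB _ hn hSζ hZζ
    rcases S.eq_empty_or_nonempty with he | hne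
    · obtain ⟨ρ, hρ1, hρ2⟩ := fresh hG (ζ := ζ) (by omega) w S Z hSζ hZζ
      have hn0 : n' = 0 := by
        rw [he, Finset.card_empty, Nat.le_zero] at hn
        rcases Nat.mul_eq_zero.mp hn with h | h
        · omega
        · exact h
      subst hn0
      exact ⟨ρ, hρ1, hρ2, fun l => l.elim0, fun l => l.elim0, fun l => l.elim0⟩
    · cases a with
      | none => exact e_leg hR hE hS (by omega) (by omega) hζ1 hm0 w S Z hSB hn hSζ hZζ hne
      | some h => exact o_leg hG hR hE hq hD0 (by omega) (by omega) (by omega) hζ1 hm0 h w S Z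
                    hSB hn hSζ hZζ hne
  · intro n a _ w S Z n' hSB _ hn hSζ hZζ
    rcases S.eq_empty_or_nonempty with he | hne
    · obtain ⟨ρ, hρ1, hρ2⟩ := fresh hG (ζ := ζ) (by omega) w S Z hSζ hZζ
      have hn0 : n' = 0 := by
        rw [he, Finset.card_empty, Nat.le_zero] at hn
        rcases Nat.mul_eq_zero.mp hn with h | h
        · omega
        · exact h
      subst hn0
      exact ⟨none, trivial, ρ, hρ1, hρ2, fun l => l.elim0, fun l => l.elim0, fun l => l.elim0⟩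
    · cases a with
      | none =>
        obtain ⟨r, h1, h2, P, h3⟩ := e_core hG hR hE hK hq hD0 (by omega) (by omega)
          (by omega) hζ1 hm0 (by omega) w S Z hSB hn hSζ hZζ hne
        exact ⟨some w, trivial, r, h1, h2, P, h3⟩
      | some h =>
        obtain ⟨v, h1, h2, P, h3⟩ := o_core hE hS (by omega) (by omega) hζ1 hm0 h w S Z hSB hn
          hSζ hZζ hne
        exact ⟨none, trivial, v, h1, h2, P, h3⟩
  · intro n _ n0 hn0
    obtain ⟨p, hp⟩ := hR.ne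
    have hT : T3 𝓡 (ex 2 p 0) (ex 2 p 1) (ex 2 p 2) := ⟨p, hp, rfl, rfl, rfl⟩
    have h1 := T3_cnt' hR (T3_symm hR hT).eb
    have h2 : n0 ≤ (Finset.univ.filter (fun a => T3 𝓡 a (ex 2 p 1) (ex 2 p 2))).card := by
      by_contra hcon
      push Not at hcon
      have h3 : q * (Finset.univ.filter (fun a => T3 𝓡 a (ex 2 p 1) (ex 2 p 2))).card ≤
        q * ζ := Nat.mul_le_mul_left _ (by omega)
      omega
    obtain ⟨S, hSsub, hSc⟩ := Finset.exists_subset_card_eq h2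
    refine ⟨none, ex 2 p 1, S, trivial, hSc, ?_, ?_⟩
    · intro hmem
      have h3 := (Finset.mem_filter.mp (hSsub hmem)).2
      exact (T3_pth hR h3).1.ne rfl
    · intro s hs
      exact ((Finset.mem_filter.mp (hSsub hs)).2).eb

end Pool.Agent.TH476.KK
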